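import Pool.Agent.X40.Kron

/-!
# Counting the real roots of a polynomial in `(0, 1)` with Descartes' rule of signs
-/

set_option autoImplicit false

namespace Pool.Agent.X40.Ds

open Polynomial Finset

/-- number of the sign changes of a sequence of signs up to the index `n` -/
def chg (s : ℕ → Bool) (n : ℕ) : ℕ := ((range n).filter (fun i => s i ≠ s (i + 1))).card

lemma chg_mono (s : ℕ → Bool) {m n : ℕ} (h : m ≤ n) : chg s m ≤ chg s n := by
  apply card_le_card
  intro i hi
  rw [mem_filter, mem_range] at hi ⊢
  exact ⟨by omega, hi.2⟩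

lemma chg_succ_le (s : ℕ → Bool) {m n : ℕ} (h : m < n) (hs : s m ≠ s n) : chg s m + 1 ≤ chg s n := by
  -- there is a change between `m` and `n`
  obtain ⟨i, hi1, hi2, hi3⟩ : ∃ i, m ≤ i ∧ i < n ∧ s i ≠ s (i + 1) := by
    by_contra hc
    push Not at hc
    have key : ∀ j, m ≤ j → j ≤ n → s j = s m := by
      intro j hj
      induction j, hj using Nat.le_induction with
      | base => intro _; rfl
      | succ j hj ih =>
        intro hjn
        rw [← hc j hj (by omega)]
        exact ih (by omega)
    exact hs (key n h.le le_rfl).symm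
  have h1 : insert i ((range m).filter (fun i => s i ≠ s (i + 1))) ⊆
      (range n).filter (fun i => s i ≠ s (i + 1)) := by
    intro j hj
    rw [mem_insert, mem_filter, mem_range] at hj
    rw [mem_filter, mem_range]
    rcases hj with rfl | ⟨hj, hj'⟩
    · exact ⟨hi2, hi3⟩
    · exact ⟨by omega, hj'⟩
  have h2 := card_le_card h1
  rw [card_insert_of_notMem (by rw [mem_filter, mem_range]; omega)] at h2
  exact h2

/-- the sequence of signs `s` is compatible with the polynomial -/
def Comp (P : ℝ[X]) (s : ℕ → Bool) : Prop :=
  ∀ i, (s i = true → 0 ≤ P.coeff i) ∧ (s i = false → P.coeff i ≤ 0)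

lemma signVariations_le (s : ℕ → Bool) : ∀ (n : ℕ) (P : ℝ[X]), P.natDegree ≤ n → Comp P s →
    P.signVariations ≤ chg s P.natDegree := by
  intro n
  induction n using Nat.strong_induction_on with
  | _ n ih =>
    intro P hn hP
    by_cases h0 : P = 0
    · rw [h0, signVariations_zero]; exact Nat.zero_le _
    rw [signVariations_eq_eraseLead_add_ite h0]
    by_cases he : P.eraseLead = 0
    · rw [he, signVariations_zero]
      split_ifs with h
      · exfalso
        rw [leadingCoeff_zero, sign_zero, neg_zero, sign_eq_zero_iff, leadingCoeff_eq_zero] at h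
        exact h0 h
      · exact Nat.zero_le _
    have hd : P.eraseLead.natDegree < P.natDegree := by
      rcases Nat.eq_zero_or_pos P.natDegree with hz | hz
      · exfalso
        apply he
        rw [eq_C_of_natDegree_eq_zero hz, eraseLead_C]
      · have := eraseLead_natDegree_le P
        omega
    have hc : Comp P.eraseLead s := by
      intro i
      rcases eq_or_ne i P.natDegree with h | h
      · rw [h, eraseLead_coeff_natDegree]
        exact ⟨fun _ => le_rfl, fun _ => le_rfl⟩
      · rw [eraseLead_coeff_of_ne _ h]
        exact hP i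
    have h1 := ih (P.eraseLead.natDegree) (by omega) P.eraseLead le_rfl hc
    split_ifs with h
    · -- the signs differ
      have h2 : s P.eraseLead.natDegree ≠ s P.natDegree := by
        intro hs
        have a1 := hP P.natDegree
        have a2 := hc P.eraseLead.natDegree
        rw [hs] at a2
        have l1 : P.leadingCoeff ≠ 0 := leadingCoeff_ne_zero.2 h0
        have l2 : P.eraseLead.leadingCoeff ≠ 0 := leadingCoeff_ne_zero.2 he
        cases hs' : s P.natDegree
        · have b1 : P.leadingCoeff < 0 := lt_of_le_of_ne (a1.2 hs') l1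
          have b2 : P.eraseLead.leadingCoeff < 0 := lt_of_le_of_ne (a2.2 hs') l2
          rw [sign_neg b1, sign_neg b2] at h
          exact absurd h (by decide)
        · have b1 : 0 < P.leadingCoeff := lt_of_le_of_ne (a1.1 hs') l1.symm
          have b2 : 0 < P.eraseLead.leadingCoeff := lt_of_le_of_ne (a2.1 hs') l2.symm
          rw [sign_pos b1, sign_pos b2] at h
          exact absurd h (by decide)
      have := chg_succ_le s hd h2
      omega
    · have := chg_mono s hd.le
      omega

lemma reverse_X_sub_C {r : ℝ} (hr : r ≠ 0) : (X - C r : ℝ[X]).reverse = 1 - C r * X := by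
  have h1 : (X - C r : ℝ[X]).natDegree = 1 := natDegree_X_sub_C r
  rw [reverse, h1, reflect_sub, reflect_C, pow_one, reflect_one_X]

/-- roots in `(0, 1)` -/
lemma countP_le (P : ℝ[X]) (hP : P ≠ 0) : P.roots.countP (fun r => 0 < r ∧ r < 1) ≤
    ((P.reverse).comp (X + 1)).signVariations := by
  classical
  set T := (P.reverse).comp (X + 1) with hT
  have hR : P.reverse ≠ 0 := by
    intro h
    exact hP (reverse_eq_zero.1 h)
  have hT0 : T ≠ 0 := by
    intro h
    have h1 : T.comp (X - 1) = P.reverse := by
      rw [hT, comp_assoc]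
      simp
    rw [h, zero_comp] at h1
    exact hR h1.symm
  refine le_trans ?_ (roots_countP_pos_le_signVariations T)
  rw [Multiset.countP_eq_card_filter, Multiset.countP_eq_card_filter]
  set S := P.roots.filter (fun r => 0 < r ∧ r < 1) with hS
  have hSr : ∀ r ∈ S, 0 < r ∧ r < 1 := fun r hr => (Multiset.mem_filter.1 hr).2
  have hdvd : (S.map (fun a => X - C a)).prod ∣ P :=
    (Multiset.prod_X_sub_C_dvd_iff_le_roots hP S).2 (Multiset.filter_le _ _)
  have hdvd2 : ∀ (A : ℝ[X]), A ∣ P → (A.reverse).comp (X + 1) ∣ T := by
    rintro A ⟨Q, hQ⟩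
    rw [hT, hQ, reverse_mul_of_domain, mul_comp]
    exact dvd_mul_right _ _
  have h1 := hdvd2 _ hdvd
  have h2 : ∀ S : Multiset ℝ, (∀ r ∈ S, 0 < r ∧ r < 1) →
      Associated (((S.map (fun a => X - C a)).prod.reverse).comp (X + 1))
        ((S.map (fun r => (1 - r) / r)).map (fun a => X - C a)).prod := by
    intro S
    induction S using Multiset.induction_on with
    | empty => intro _; simp [reverse]
    | cons r S ih =>
      intro hr
      have hr0 := hr r (Multiset.mem_cons_self _ _)
      have ih := ih fun a ha => hr a (Multiset.mem_cons_of_mem ha)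
      rw [Multiset.map_cons, Multiset.prod_cons, reverse_mul_of_domain, mul_comp, Multiset.map_cons,
        Multiset.map_cons, Multiset.prod_cons]
      refine Associated.mul_mul ?_ ih
      rw [reverse_X_sub_C hr0.1.ne']
      refine Associated.symm ⟨Units.mk (C (-r)) (C (-r⁻¹)) ?_ ?_, ?_⟩
      · rw [← C_mul]
        have : -r * -r⁻¹ = 1 := by field_simp [hr0.1.ne']
        rw [this, C_1]
      · rw [← C_mul]
        have : -r⁻¹ * -r = 1 := by field_simp [hr0.1.ne']
        rw [this, C_1]
      · simp only [sub_comp, one_comp, mul_comp, C_comp, X_comp]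
        rw [sub_mul, ← C_mul]
        have : (1 - r) / r * -r = -(1 - r) := by field_simp [hr0.1.ne']
        rw [this]
        simp only [map_neg, map_sub, map_one]
        ring
  have h3 := (h2 S hSr).dvd'.trans h1
  have h4 := (Multiset.prod_X_sub_C_dvd_iff_le_roots hT0 _).1 h3
  have h5 : S.map (fun r => (1 - r) / r) ≤ T.roots.filter (fun x => 0 < x) := by
    rw [Multiset.le_filter]
    refine ⟨h4, ?_⟩
    intro x hx
    rw [Multiset.mem_map] at hx
    obtain ⟨r, hr, rfl⟩ := hx
    have := hSr r hr
    exact div_pos (by linarith) this.1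
  have h6 := Multiset.card_le_card h5
  rwa [Multiset.card_map] at h6

end Pool.Agent.X40.Ds
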