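import Pool.Agent.X40.Kron2
import Pool.Agent.X40.Desc

/-!
# Real critical points of cyclotomic polynomials: the data for Descartes' rule of signs
-/

set_option autoImplicit false

namespace Pool.Agent.X40.Cr

open Polynomial Finset Pool.Agent.X40 Pool.Agent.X40.Kr Pool.Agent.X40.Ds

lemma len_UV : ∀ l : List ℕ, l ≠ [] → (U l).length = (V l).length := by
  intro l
  induction l with
  | nil => intro h; exact absurd rfl h
  | cons p l ih =>
    intro _
    rw [U, V]
    split_ifs with h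
    · rw [List.length_map, List.length_map]
      exact ih (List.ne_nil_of_mem h)
    · rw [List.length_append, List.length_append, List.length_map, List.length_map]
      omega

lemma natDegree_XE {e : ℕ} : ((X : ℤ[X]) ^ e - 1).natDegree = e := by
  rw [← C_1]; exact natDegree_X_pow_sub_C

lemma XE_ne {e : ℕ} (he : 0 < e) : ((X : ℤ[X]) ^ e - 1) ≠ 0 := by
  rw [← C_1]; exact X_pow_sub_C_ne_zero he 1

lemma natDegree_PP : ∀ l : List ℕ, (∀ e ∈ l, 0 < e) → (PP l).natDegree = l.sum := by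
  intro l
  induction l with
  | nil => intro _; simp [PP]
  | cons e l ih =>
    intro h
    rw [PP_cons, natDegree_mul (XE_ne (h e (by simp))) (PP_ne_zero l fun a ha => h a (by simp [ha])),
      natDegree_XE, ih fun a ha => h a (by simp [ha]), List.sum_cons]

lemma reverse_XE {e : ℕ} : ((X : ℤ[X]) ^ e - 1).reverse = -(X ^ e - 1) := by
  rw [reverse, natDegree_XE, reflect_sub]
  have h1 : reflect e ((X : ℤ[X]) ^ e) = 1 := by
    have := reflect_C_mul_X_pow (R := ℤ) e e (c := 1)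
    rw [C_1, one_mul] at this
    rw [this]
    simp [revAt_le]
  have h2 : reflect e (1 : ℤ[X]) = X ^ e := by
    have := reflect_C (R := ℤ) 1 e
    rwa [C_1, one_mul] at this
  rw [h1, h2]; ring

lemma reverse_PP : ∀ l : List ℕ, (PP l).reverse = (-1) ^ l.length * PP l := by
  intro l
  induction l with
  | nil => simp [PP, reverse]
  | cons e l ih =>
    rw [PP_cons, reverse_mul_of_domain, reverse_XE, ih, List.length_cons, pow_succ]
    ring

/-- the cyclotomic polynomials are palindromic -/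
lemma reverse_cyc {l : List ℕ} (hl : ∀ p ∈ l, p.Prime) (hl0 : l ≠ []) :
    (cyclotomic l.prod ℤ).reverse = cyclotomic l.prod ℤ := by
  have h1 := cyc_mul l hl
  have h2 := congrArg reverse h1
  rw [reverse_mul_of_domain, reverse_PP, reverse_PP, len_UV l hl0, ← h1] at h2
  have h3 : (-1 : ℤ[X]) ^ (V l).length * PP (V l) ≠ 0 :=
    mul_ne_zero (pow_ne_zero _ (neg_ne_zero.2 one_ne_zero)) (PP_ne_zero _ (pos_UV l hl).2)
  apply mul_right_cancel₀ h3
  rw [h2]
  ring

lemma natDegree_cyc {l : List ℕ} (hl : ∀ p ∈ l, p.Prime) :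
    (cyclotomic l.prod ℤ).natDegree + (V l).sum = (U l).sum := by
  have h1 := cyc_mul l hl
  have hP := pos_UV l hl
  rw [← natDegree_PP (U l) hP.1, ← h1, natDegree_mul (cyclotomic_ne_zero _ _) (PP_ne_zero _ hP.2),
    natDegree_PP _ hP.2]

/-- the polynomial `d Φ - X Φ'` -/
noncomputable def RR (Φ : ℤ[X]) : ℤ[X] := C (Φ.natDegree : ℤ) * Φ - X * derivative Φ

lemma coeff_RR (Φ : ℤ[X]) (i : ℕ) : (RR Φ).coeff i = ((Φ.natDegree : ℤ) - i) * Φ.coeff i := by
  rw [RR, coeff_sub, coeff_C_mul]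
  rcases i with _ | i
  · simp
  · rw [coeff_X_mul, coeff_derivative]
    push_cast
    ring

lemma reverse_derivative {Φ : ℤ[X]} (hΦ : Φ.reverse = Φ) (hd : 0 < Φ.natDegree) :
    (derivative Φ).reverse = RR Φ := by
  have h0 : (derivative Φ).natDegree = Φ.natDegree - 1 := by
    exact natDegree_derivative Φ
  ext i
  rw [coeff_RR, coeff_reverse, h0]
  rcases le_or_gt i (Φ.natDegree - 1) with h | h
  · rw [revAt_le h, coeff_derivative]
    have h1 : Φ.coeff i = Φ.coeff (Φ.natDegree - i) := by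
      conv_lhs => rw [← hΦ, coeff_reverse, revAt_le (show i ≤ Φ.natDegree by omega)]
    rw [h1, show Φ.natDegree - 1 - i + 1 = Φ.natDegree - i by omega]
    have h2 : ((Φ.natDegree - 1 - i : ℕ) : ℤ) + 1 = (Φ.natDegree : ℤ) - i := by omega
    rw [h2]
    ring
  · rw [revAt_eq_self_of_lt h, coeff_derivative]
    have h1 : Φ.coeff (i + 1) = 0 := coeff_eq_zero_of_natDegree_lt (by omega)
    rw [h1, zero_mul]
    rcases Nat.lt_or_ge Φ.natDegree i with h2 | h2
    · rw [coeff_eq_zero_of_natDegree_lt h2, mul_zero]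
    · have h3 : i = Φ.natDegree := by omega
      rw [h3, sub_self, zero_mul]

/-- the sum over the factors of `PP l` with the factor `X ^ e - 1` replaced by `e` -/
noncomputable def W : List ℕ → ℤ[X]
  | [] => 0
  | e :: l => C (e : ℤ) * PP l + (X ^ e - 1) * W l

lemma theta_PP : ∀ l : List ℕ, X * derivative (PP l) = C (l.sum : ℤ) * PP l + W l := by
  intro l
  induction l with
  | nil => simp [PP, W]
  | cons e l ih =>
    rw [PP_cons, derivative_mul, mul_add, W, List.sum_cons]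
    have h1 : X * (derivative ((X : ℤ[X]) ^ e - 1) * PP l) = C (e : ℤ) * X ^ e * PP l := by
      rw [derivative_sub, derivative_X_pow, derivative_one, sub_zero]
      rcases e with _ | e
      · simp
      · rw [Nat.add_sub_cancel, pow_succ]
        ring
    have h2 : X * ((X ^ e - 1) * derivative (PP l)) = (X ^ e - 1) * (C (l.sum : ℤ) * PP l + W l) := by
      rw [← ih]; ring
    rw [h1, h2]
    push_cast
    rw [C_add]
    ring

lemma RR_mul {l : List ℕ} (hl : ∀ p ∈ l, p.Prime) :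
    RR (cyclotomic l.prod ℤ) * PP (V l) = cyclotomic l.prod ℤ * W (V l) - W (U l) := by
  have h1 := cyc_mul l hl
  have h2 := natDegree_cyc hl
  have h3 := theta_PP (U l)
  have h4 := theta_PP (V l)
  rw [← h1, derivative_mul, mul_add] at h3
  have h5 : C (((U l).sum : ℕ) : ℤ) = C ((cyclotomic l.prod ℤ).natDegree : ℤ) + C (((V l).sum : ℕ) : ℤ) := by
    rw [← h2]; push_cast; rw [C_add]
  rw [h5] at h3
  rw [RR]
  linear_combination -h3 + cyclotomic l.prod ℤ * h4

/-- the value of `W l` at `b` -/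
def nn (b : ℕ) : List ℕ → ℕ
  | [] => 0
  | e :: l => e * ev b l + (b ^ e - 1) * nn b l

lemma W_eval (b : ℕ) (hb : 0 < b) : ∀ l : List ℕ, (W l).eval (b : ℤ) = (nn b l : ℤ) := by
  intro l
  induction l with
  | nil => simp [W, nn]
  | cons e l ih =>
    rw [W, eval_add, eval_mul, eval_C, ev_eq b hb, eval_mul, ih, eval_sub, eval_pow, eval_X, eval_one, nn]
    rw [Nat.cast_add, Nat.cast_mul, Nat.cast_mul, Nat.cast_sub (Nat.one_le_pow _ _ hb)]
    push_cast
    ring

lemma RR_eval {l : List ℕ} (hl : ∀ p ∈ l, p.Prime) {b : ℕ} (hb : 1 < b) :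
    (RR (cyclotomic l.prod ℤ)).eval (b : ℤ) * ev b (V l) = cv b l * nn b (V l) - nn b (U l) := by
  have h := congrArg (eval (b : ℤ)) (RR_mul hl)
  rw [eval_mul, eval_sub, eval_mul, W_eval b (by omega), W_eval b (by omega), cv_eq b hb l hl,
    ev_eq b (by omega)] at h
  exact h

/-- the value at `2 ^ K` of `RR (Φ) (X + 1) + h (1 + X + ... + X ^ (n - 1))` -/
def Mv (K n h : ℕ) (l : List ℕ) : ℕ :=
  (cv (2 ^ K + 1) l * nn (2 ^ K + 1) (V l) + h * J2 (2 ^ K) n * ev (2 ^ K + 1) (V l) -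
    nn (2 ^ K + 1) (U l)) / ev (2 ^ K + 1) (V l)

/-- the condition that the subtraction in `Mv` is not truncated -/
def okM (K n h : ℕ) (l : List ℕ) : Bool :=
  Nat.ble (nn (2 ^ K + 1) (U l))
    (cv (2 ^ K + 1) l * nn (2 ^ K + 1) (V l) + h * J2 (2 ^ K) n * ev (2 ^ K + 1) (V l))

lemma Mv_eq {K n h : ℕ} {l : List ℕ} (hl : ∀ p ∈ l, p.Prime) (hok : okM K n h l = true) :
    (Mv K n h l : ℤ) = ((RR (cyclotomic l.prod ℤ)).comp (X + 1)).eval ((2 ^ K : ℕ) : ℤ) +
      h * J K n := by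
  have hb : 1 < 2 ^ K + 1 := by
    have : 0 < 2 ^ K := by positivity
    omega
  have h1 := RR_eval hl hb
  have h2 := Nat.le_of_ble_eq_true hok
  rw [J2_eq] at h2
  have h3 := ev_pos (2 ^ K + 1) hb (V l) (pos_UV l hl).2
  rw [Mv, Int.natCast_div, J2_eq, Nat.cast_sub h2]
  have h4 : (((cv (2 ^ K + 1) l * nn (2 ^ K + 1) (V l) + h * J K n * ev (2 ^ K + 1) (V l) : ℕ) : ℤ) -
      (nn (2 ^ K + 1) (U l) : ℤ)) = ((RR (cyclotomic l.prod ℤ)).eval (((2 ^ K + 1 : ℕ)) : ℤ) +
        h * J K n) * ev (2 ^ K + 1) (V l) := by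
    rw [add_mul, h1]
    push_cast
    ring
  rw [h4, Int.mul_ediv_cancel]
  · rw [eval_comp, eval_add, eval_X, eval_one]
    push_cast
    rfl
  · positivity

/-- number of the sign changes of the digits minus `2 ^ (K - 1)` of `M`, where `s` is the sign before -/
def sv (K n : ℕ) : ℕ → Bool → ℕ :=
  Nat.rec (motive := fun _ => ℕ → Bool → ℕ) (fun _ _ => 0)
    (fun _ ih M s => Bool.rec
      (Bool.rec (ih (M / 2 ^ K) false) (ih (M / 2 ^ K) false + 1) s)
      (Bool.rec (ih (M / 2 ^ K) true + 1) (ih (M / 2 ^ K) true) s)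
      (Nat.ble (2 ^ (K - 1)) (M % 2 ^ K))) n

/-- the sign of a digit -/
def sg (K M i : ℕ) : Bool := Nat.ble (2 ^ (K - 1)) (M / (2 ^ K) ^ i % 2 ^ K)

lemma chg_eq_sum (s : ℕ → Bool) (n : ℕ) : chg s n = ∑ i ∈ range n, if s i ≠ s (i + 1) then 1 else 0 := by
  rw [chg, card_filter]

lemma chg_shift (s : ℕ → Bool) (n : ℕ) :
    chg s (n + 1) = chg (fun i => s (i + 1)) n + if s 0 ≠ s 1 then 1 else 0 := by
  rw [chg_eq_sum, chg_eq_sum, sum_range_succ']

lemma sg_succ (K M i : ℕ) : sg K M (i + 1) = sg K (M / 2 ^ K) i := by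
  rw [sg, sg, pow_succ', Nat.div_div_eq_div_mul]

lemma sv_succ (K n M : ℕ) (s : Bool) : sv K (n + 1) M s =
    (if s ≠ sg K M 0 then 1 else 0) + sv K n (M / 2 ^ K) (sg K M 0) := by
  have h0 : sg K M 0 = Nat.ble (2 ^ (K - 1)) (M % 2 ^ K) := by
    rw [sg, pow_zero, Nat.div_one]
  have h1 : sv K (n + 1) M s = Bool.rec (motive := fun _ => ℕ)
      (Bool.rec (motive := fun _ => ℕ) (sv K n (M / 2 ^ K) false) (sv K n (M / 2 ^ K) false + 1) s)
      (Bool.rec (motive := fun _ => ℕ) (sv K n (M / 2 ^ K) true + 1) (sv K n (M / 2 ^ K) true) s)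
      (Nat.ble (2 ^ (K - 1)) (M % 2 ^ K)) := rfl
  rw [h1, ← h0]
  cases sg K M 0 <;> cases s <;> simp [add_comm]

lemma chg_le_sv (K n : ℕ) : ∀ (M : ℕ) (s : Bool) (d : ℕ), d < n →
    (if s ≠ sg K M 0 then 1 else 0) + chg (sg K M) d ≤ sv K n M s := by
  induction n with
  | zero => intro M s d hd; omega
  | succ n ih =>
    intro M s d hd
    rw [sv_succ]
    apply Nat.add_le_add_left
    rcases d with _ | d
    · simp [chg]
    · rw [chg_shift]
      have h1 := ih (M / 2 ^ K) (sg K M 0) d (by omega)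
      have h2 : (fun i => sg K M (i + 1)) = sg K (M / 2 ^ K) := by
        funext i; exact sg_succ K M i
      rw [h2, show sg K M 1 = sg K (M / 2 ^ K) 0 from sg_succ K M 0]
      omega

lemma H_comp (Q : ℤ[X]) : H (Q.comp (X + 1)) ≤ 2 ^ (Q.natDegree + 1) * H Q := by
  apply H_le
  intro i
  have h1 : Q.comp (X + 1) = ∑ j ∈ range (Q.natDegree + 1), C (Q.coeff j) * (X + 1) ^ j := by
    rw [comp_eq_sum_left, sum_over_range]
    intro j
    rw [C_0, zero_mul]
  rw [h1, finsetSum_coeff]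
  simp_rw [coeff_C_mul, coeff_X_add_one_pow]
  refine (abs_sum_le_sum_abs _ _).trans ?_
  have h2 : ∀ j ∈ range (Q.natDegree + 1), |Q.coeff j * (j.choose i : ℤ)| ≤ (H Q : ℤ) * 2 ^ j := by
    intro j _
    rw [abs_mul, Nat.abs_cast]
    have h3 : ((j.choose i : ℕ) : ℤ) ≤ 2 ^ j := by exact_mod_cast Nat.choose_le_two_pow j i
    exact mul_le_mul (abs_le_H Q j) h3 (by positivity) (by positivity)
  refine (sum_le_sum h2).trans ?_
  rw [← mul_sum]
  have h4 : (∑ j ∈ range (Q.natDegree + 1), (2 : ℤ) ^ j) ≤ 2 ^ (Q.natDegree + 1) := by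
    have := Nat.geomSum_lt (m := 2) (n := Q.natDegree + 1) (s := range (Q.natDegree + 1)) le_rfl
      (fun k hk => mem_range.1 hk)
    exact_mod_cast this.le
  calc (H Q : ℤ) * ∑ j ∈ range (Q.natDegree + 1), (2 : ℤ) ^ j ≤ (H Q : ℤ) * 2 ^ (Q.natDegree + 1) :=
        mul_le_mul_of_nonneg_left h4 (by positivity)
    _ = ((2 ^ (Q.natDegree + 1) * H Q : ℕ) : ℤ) := by push_cast; ring

lemma H_RR (Φ : ℤ[X]) : H (RR Φ) ≤ Φ.natDegree * H Φ := by
  apply H_le
  intro i
  rw [coeff_RR, abs_mul]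
  rcases le_or_gt i Φ.natDegree with h | h
  · push_cast
    apply mul_le_mul _ (abs_le_H Φ i) (abs_nonneg _) (by positivity)
    rw [abs_of_nonneg (by omega)]
    omega
  · rw [coeff_eq_zero_of_natDegree_lt h, abs_zero, mul_zero]
    positivity

lemma natDegree_RR_le (Φ : ℤ[X]) : (RR Φ).natDegree ≤ Φ.natDegree := by
  rw [natDegree_le_iff_coeff_eq_zero]
  intro i hi
  rw [coeff_RR, coeff_eq_zero_of_natDegree_lt hi, mul_zero]

lemma digits {K n M : ℕ} {T : ℤ[X]} (hK : 0 < K) (hT : H T < 2 ^ (K - 1))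
    (hM : (M : ℤ) = T.eval ((2 ^ K : ℕ) : ℤ) + (2 ^ (K - 1) : ℕ) * J K n) (hlt : M < (2 ^ K) ^ n) :
    ∀ i, T.coeff i = if i < n then ((M / (2 ^ K) ^ i % 2 ^ K : ℕ) : ℤ) - (2 ^ (K - 1) : ℕ) else 0 := by
  have hexp := expansion (2 ^ K) n M
  rw [Nat.div_eq_of_lt hlt, mul_zero, add_zero] at hexp
  have h2K : 2 ^ K = 2 ^ (K - 1) * 2 := by rw [← pow_succ]; congr 1; omega
  set F : ℤ[X] := ∑ i ∈ range n, C (((M / (2 ^ K) ^ i % 2 ^ K : ℕ) : ℤ) - (2 ^ (K - 1) : ℕ)) * X ^ i with hF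
  have hcF : ∀ i, F.coeff i = if i < n then ((M / (2 ^ K) ^ i % 2 ^ K : ℕ) : ℤ) - (2 ^ (K - 1) : ℕ) else 0 := by
    intro i
    rw [hF, finsetSum_coeff]
    simp_rw [coeff_C_mul_X_pow]
    rw [sum_ite_eq]
    simp only [mem_range]
  have hHF : H F ≤ 2 ^ (K - 1) := by
    apply H_le
    intro i
    rw [hcF]
    split_ifs with hi
    · have h1 : M / (2 ^ K) ^ i % 2 ^ K < 2 ^ K := Nat.mod_lt _ (by positivity)
      generalize M / (2 ^ K) ^ i % 2 ^ K = d at h1
      rw [h2K] at h1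
      generalize 2 ^ (K - 1) = t at h1
      rw [abs_le]
      constructor <;> omega
    · rw [abs_zero]; positivity
  have hev : F.eval ((2 ^ K : ℕ) : ℤ) = T.eval ((2 ^ K : ℕ) : ℤ) := by
    rw [hF, eval_finsetSum]
    simp only [eval_mul, eval_C, eval_pow, eval_X, sub_mul, sum_sub_distrib]
    rw [← mul_sum]
    have e1 : (∑ i ∈ range n, ((M / (2 ^ K) ^ i % 2 ^ K : ℕ) : ℤ) * ((2 ^ K : ℕ) : ℤ) ^ i) = (M : ℤ) := by
      conv_rhs => rw [hexp]
      push_cast
      rfl
    have e2 : (∑ i ∈ range n, ((2 ^ K : ℕ) : ℤ) ^ i) = (J K n : ℤ) := by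
      rw [J_eq hK]
      push_cast
      rfl
    rw [e1, e2, hM]
    ring
  have hz : F - T = 0 := by
    apply eq_zero_of_eval (B := 2 ^ K) (by positivity)
    · rw [eval_sub, hev, sub_self]
    · have e6 : H (F - T) ≤ H F + H T := by
        apply H_le
        intro i
        have f1 := abs_le_H F i
        have f2 := abs_le_H T i
        rw [coeff_sub]
        rw [abs_le] at f1 f2 ⊢
        push_cast
        constructor <;> linarith
      omega
  have hFT : F = T := by linear_combination hz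
  rw [← hFT]
  exact hcF

lemma reverse_map (p : ℤ[X]) : (p.map (Int.castRingHom ℝ)).reverse = p.reverse.map (Int.castRingHom ℝ) := by
  ext i
  rw [coeff_reverse, coeff_map, coeff_map, coeff_reverse,
    natDegree_map_eq_of_injective (RingHom.injective_int _)]

/-- the check for the number of the roots in `(0, 1)` -/
def chkC (K n h0 v : ℕ) (l : List ℕ) : Bool :=
  okM K n (2 ^ (K - 1)) l && Nat.blt (Mv K n (2 ^ (K - 1)) l) ((2 ^ K) ^ n) &&
  Nat.blt (2 ^ ((U l).sum - (V l).sum + 1) * (((U l).sum - (V l).sum) * h0)) (2 ^ (K - 1)) &&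
  Nat.ble (sv K n (Mv K n (2 ^ (K - 1)) l) true) v

theorem count_le {K n h0 v : ℕ} {l : List ℕ} (hK : 0 < K) (hn : 0 < n) (hl : ∀ p ∈ l, p.Prime)
    (hl0 : l ≠ []) (h0H : H (cyclotomic l.prod ℤ) ≤ h0) (hchk : chkC K n h0 v l = true) :
    (derivative (cyclotomic l.prod ℝ)).roots.countP (fun r => 0 < r ∧ r < 1) ≤ v := by
  rw [chkC, Bool.and_eq_true, Bool.and_eq_true, Bool.and_eq_true, Nat.blt_eq, Nat.blt_eq] at hchk
  obtain ⟨⟨⟨h1, h2⟩, h3⟩, h4⟩ := hchk
  have h4 := Nat.le_of_ble_eq_true h4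
  have hM := Mv_eq hl h1
  set M := Mv K n (2 ^ (K - 1)) l with hMdef
  set Φ := cyclotomic l.prod ℤ with hΦ
  have hphi : Φ.natDegree = (U l).sum - (V l).sum := by
    have h5 := natDegree_cyc hl
    rw [← hΦ] at h5
    omega
  have hprod : 0 < l.prod := by
    apply Nat.pos_of_ne_zero
    rw [Ne, List.prod_eq_zero_iff]
    intro h
    exact Nat.not_prime_zero (hl 0 h)
  have hd : 0 < Φ.natDegree := by
    rw [hΦ, natDegree_cyclotomic]
    exact Nat.totient_pos.2 hprod
  set T := (RR Φ).comp (X + 1) with hT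
  have hHT : H T < 2 ^ (K - 1) := by
    refine lt_of_le_of_lt ?_ h3
    rw [← hphi]
    calc H T ≤ 2 ^ ((RR Φ).natDegree + 1) * H (RR Φ) := H_comp _
      _ ≤ 2 ^ (Φ.natDegree + 1) * (Φ.natDegree * h0) := by
        apply Nat.mul_le_mul
        · exact Nat.pow_le_pow_right (by norm_num) (by have := natDegree_RR_le Φ; omega)
        · exact (H_RR Φ).trans (Nat.mul_le_mul_left _ h0H)
  have hdig := digits hK hHT hM h2
  have hrev : (derivative (cyclotomic l.prod ℝ)).reverse = (RR Φ).map (Int.castRingHom ℝ) := by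
    rw [← map_cyclotomic_int l.prod ℝ, derivative_map, reverse_map,
      reverse_derivative (reverse_cyc hl hl0) hd]
  have hcomp : (derivative (cyclotomic l.prod ℝ)).reverse.comp (X + 1) = T.map (Int.castRingHom ℝ) := by
    rw [hrev, hT, map_comp]
    simp
  have hder0 : derivative (cyclotomic l.prod ℝ) ≠ 0 := by
    intro h
    have h5 := natDegree_derivative (cyclotomic l.prod ℝ)
    rw [h] at hrev
    have h6 : (RR Φ).map (Int.castRingHom ℝ) = 0 := by rw [← hrev]; simp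
    have h7 : RR Φ = 0 := (Polynomial.map_eq_zero_iff (RingHom.injective_int _)).1 h6
    have h8 := coeff_RR Φ 0
    rw [h7, coeff_zero] at h8
    have h9 : Φ.coeff 0 = 1 ∨ Φ.coeff 0 = -1 := by
      have h10 : Φ.coeff 0 = Φ.leadingCoeff := by
        have h11 : Φ.reverse = Φ := reverse_cyc hl hl0
        conv_lhs => rw [← h11, coeff_zero_reverse]
      left
      rw [h10]
      exact (cyclotomic.monic _ _).leadingCoeff
    rcases h9 with h9 | h9 <;> rw [h9] at h8 <;> push_cast at h8 <;> omega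
  refine (countP_le _ hder0).trans ?_
  rw [hcomp]
  have hComp : Comp (T.map (Int.castRingHom ℝ)) (sg K M) := by
    intro i
    rw [coeff_map, hdig i]
    simp only [eq_intCast, sg]
    split_ifs with hi
    · constructor
      · intro h
        have := Nat.le_of_ble_eq_true h
        have h5 : (0 : ℤ) ≤ ((M / (2 ^ K) ^ i % 2 ^ K : ℕ) : ℤ) - (2 ^ (K - 1) : ℕ) := by omega
        exact_mod_cast h5
      · intro h
        have h6 : ¬ 2 ^ (K - 1) ≤ M / (2 ^ K) ^ i % 2 ^ K := by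
          intro hc
          rw [Nat.ble_eq_true_of_le hc] at h
          exact absurd h (by simp)
        have h5 : ((M / (2 ^ K) ^ i % 2 ^ K : ℕ) : ℤ) - (2 ^ (K - 1) : ℕ) ≤ 0 := by omega
        exact_mod_cast h5
    · simp
  have hTn : (T.map (Int.castRingHom ℝ)).natDegree < n := by
    apply Nat.lt_of_le_of_lt (natDegree_map_le)
    by_contra hc
    push Not at hc
    have h5 : T.coeff T.natDegree = 0 := by
      rw [hdig, if_neg (by omega)]
    have h6 : T = 0 := leadingCoeff_eq_zero.1 h5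
    rw [h6, natDegree_zero] at hc
    omega
  have h5 := signVariations_le (sg K M) _ _ le_rfl hComp
  have h6 := chg_le_sv K n M true _ hTn
  omega

end Pool.Agent.X40.Cr
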