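import Pool.Agent.X40.Crit

/-!
# Real critical points of cyclotomic polynomials: upper and lower bounds for their number
-/

set_option autoImplicit false

namespace Pool.Agent.X40.Cr

open Polynomial Finset Pool.Agent.X40 Pool.Agent.X40.Kr Pool.Agent.X40.Ds

/-- the product of the `X ^ e + 1` -/
noncomputable def PQ (l : List ℕ) : ℤ[X] := (l.map (fun e => (X : ℤ[X]) ^ e + 1)).prod

lemma PQ_cons (e : ℕ) (l : List ℕ) : PQ (e :: l) = (X ^ e + 1) * PQ l := by simp [PQ]

lemma PP_two (l : List ℕ) : PP (l.map (fun e => 2 * e)) = PP l * PQ l := by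
  induction l with
  | nil => simp [PP, PQ]
  | cons e l ih =>
    rw [List.map_cons, PP_cons, PP_cons, PQ_cons, ih, mul_comm 2 e, pow_mul]
    ring

lemma PP_comp_neg : ∀ l : List ℕ, (∀ e ∈ l, Odd e) → (PP l).comp (-X) = (-1) ^ l.length * PQ l := by
  intro l
  induction l with
  | nil => intro _; simp [PP, PQ]
  | cons e l ih =>
    intro h
    rw [PP_cons, PQ_cons, mul_comp, ih fun a ha => h a (by simp [ha]), sub_comp, pow_comp, X_comp,
      one_comp, Odd.neg_pow (h e (by simp)), List.length_cons, pow_succ]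
    ring

lemma odd_UV (l : List ℕ) (hl : ∀ p ∈ l, Odd p) : (∀ e ∈ U l, Odd e) ∧ (∀ e ∈ V l, Odd e) := by
  induction l with
  | nil => simp [U, V]
  | cons p l ih =>
    have hp : Odd p := hl p (by simp)
    obtain ⟨h1, h2⟩ := ih (fun q hq => hl q (by simp [hq]))
    constructor
    · intro e he
      rw [U] at he
      split_ifs at he
      · rw [List.mem_map] at he
        obtain ⟨a, ha, rfl⟩ := he
        exact hp.mul (h1 a ha)
      · rw [List.mem_append, List.mem_map] at he
        rcases he with ⟨a, ha, rfl⟩ | he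
        · exact hp.mul (h1 a ha)
        · exact h2 e he
    · intro e he
      rw [V] at he
      split_ifs at he
      · rw [List.mem_map] at he
        obtain ⟨a, ha, rfl⟩ := he
        exact hp.mul (h2 a ha)
      · rw [List.mem_append, List.mem_map] at he
        rcases he with ⟨a, ha, rfl⟩ | he
        · exact hp.mul (h2 a ha)
        · exact h1 e he

lemma PQ_ne_zero (l : List ℕ) (hl : ∀ e ∈ l, 0 < e) : PQ l ≠ 0 := by
  intro h
  have h1 := PP_two l
  rw [h, mul_zero] at h1
  refine PP_ne_zero _ ?_ h1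
  intro e he
  rw [List.mem_map] at he
  obtain ⟨a, ha, rfl⟩ := he
  have := hl a ha
  omega

/-- `Φ_{2 n} (X) = Φ_n (-X)` for odd `n > 1` -/
lemma cyc_neg {l : List ℕ} (hl : ∀ p ∈ l, p.Prime) (hodd : ∀ p ∈ l, Odd p) (hl0 : l ≠ []) :
    cyclotomic (2 :: l).prod ℤ = (cyclotomic l.prod ℤ).comp (-X) := by
  have h2 : 2 ∉ l := fun h => absurd (hodd 2 h) (by decide)
  have hl2 : ∀ p ∈ 2 :: l, p.Prime := by
    intro p hp
    rw [List.mem_cons] at hp
    rcases hp with rfl | hp
    · exact Nat.prime_two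
    · exact hl p hp
  have h3 := cyc_mul (2 :: l) hl2
  rw [U, V, if_neg h2, if_neg h2, PP_append, PP_append, PP_two, PP_two] at h3
  have hpos := pos_UV l hl
  have hU := PP_ne_zero _ hpos.1
  have hV := PP_ne_zero _ hpos.2
  have hQV := PQ_ne_zero _ hpos.2
  have h4 : cyclotomic (2 :: l).prod ℤ * PQ (V l) = PQ (U l) := by
    apply mul_right_cancel₀ (mul_ne_zero hU hV)
    linear_combination h3
  have h5 := congrArg (fun p => p.comp (-X)) (cyc_mul l hl)
  have ho := odd_UV l hodd
  simp only [mul_comp] at h5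
  rw [PP_comp_neg _ ho.1, PP_comp_neg _ ho.2, len_UV l hl0] at h5
  have h6 : (cyclotomic l.prod ℤ).comp (-X) * PQ (V l) = PQ (U l) := by
    apply mul_right_cancel₀ (pow_ne_zero (V l).length (neg_ne_zero.2 (one_ne_zero (α := ℤ[X]))))
    linear_combination h5
  apply mul_right_cancel₀ hQV
  rw [h4, h6]

lemma derivative_neg {l : List ℕ} (hl : ∀ p ∈ l, p.Prime) (hodd : ∀ p ∈ l, Odd p) (hl0 : l ≠ []) :
    derivative (cyclotomic (2 :: l).prod ℝ) = -(derivative (cyclotomic l.prod ℝ)).comp (-X) := by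
  have h1 : cyclotomic (2 :: l).prod ℝ = (cyclotomic l.prod ℝ).comp (-X) := by
    rw [← map_cyclotomic_int (2 :: l).prod ℝ, cyc_neg hl hodd hl0, map_comp, map_cyclotomic_int]
    simp
  rw [h1, derivative_comp]
  simp

/-- roots in `(-1, 0)` -/
lemma countP_neg {l : List ℕ} (hl : ∀ p ∈ l, p.Prime) (hodd : ∀ p ∈ l, Odd p) (hl0 : l ≠ [])
    (h0 : derivative (cyclotomic l.prod ℝ) ≠ 0) :
    (derivative (cyclotomic l.prod ℝ)).roots.countP (fun r => -1 < r ∧ r < 0) ≤
    (derivative (cyclotomic (2 :: l).prod ℝ)).roots.countP (fun r => 0 < r ∧ r < 1) := by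
  classical
  have hneg := derivative_neg hl hodd hl0
  set P := derivative (cyclotomic l.prod ℝ) with hP
  set P2 := derivative (cyclotomic (2 :: l).prod ℝ) with hP2
  have h20 : P2 ≠ 0 := by
    intro h
    rw [h] at hneg
    have h1 : P.comp (-X) = 0 := by rw [← neg_eq_zero, ← hneg]
    have h2 : (P.comp (-X)).comp (-X) = P := by
      rw [comp_assoc]; simp
    rw [h1, zero_comp] at h2
    exact h0 h2.symm
  rw [Multiset.countP_eq_card_filter, Multiset.countP_eq_card_filter]
  set S := P.roots.filter (fun r => -1 < r ∧ r < 0) with hS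
  have hdvd : (S.map (fun a => X - C a)).prod ∣ P :=
    (Multiset.prod_X_sub_C_dvd_iff_le_roots h0 S).2 (Multiset.filter_le _ _)
  have h1 : ((S.map (fun a => X - C a)).prod).comp (-X) ∣ P2 := by
    obtain ⟨Q, hQ⟩ := hdvd
    rw [hneg, hQ, mul_comp]
    exact (dvd_mul_right _ _).neg_right
  have h2 : ∀ S : Multiset ℝ, ((S.map (fun a => X - C a)).prod).comp (-X) =
      (-1) ^ (Multiset.card S) * ((S.map (fun r => -r)).map (fun a => X - C a)).prod := by
    intro S
    induction S using Multiset.induction_on with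
    | empty => simp
    | cons r S ih =>
      rw [Multiset.map_cons, Multiset.prod_cons, mul_comp, ih, Multiset.map_cons, Multiset.map_cons,
        Multiset.prod_cons, Multiset.card_cons, pow_succ]
      simp only [sub_comp, X_comp, C_comp, map_neg]
      ring
  rw [h2] at h1
  have h3 : ((S.map (fun r => -r)).map (fun a => X - C a)).prod ∣ P2 := by
    refine dvd_trans ?_ h1
    exact dvd_mul_left _ _
  have h4 := (Multiset.prod_X_sub_C_dvd_iff_le_roots h20 _).1 h3
  have h5 : S.map (fun r => -r) ≤ P2.roots.filter (fun x => 0 < x ∧ x < 1) := by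
    rw [Multiset.le_filter]
    refine ⟨h4, ?_⟩
    intro x hx
    rw [Multiset.mem_map] at hx
    obtain ⟨r, hr, rfl⟩ := hx
    have := (Multiset.mem_filter.1 hr).2
    constructor <;> linarith
  have h6 := Multiset.card_le_card h5
  rwa [Multiset.card_map] at h6

/-- the number of the real roots of the derivative of the `m`-th cyclotomic polynomial, counted with
multiplicity -/
noncomputable def N (m : ℕ) : ℕ := Multiset.card (derivative (cyclotomic m ℝ)).roots

lemma roots_abs_lt {n : ℕ} (hn : 2 < n) {r : ℝ} (hr : r ∈ (derivative (cyclotomic n ℝ)).roots) :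
    -1 < r ∧ r < 1 := by
  have h0 : derivative (cyclotomic n ℝ) ≠ 0 := (mem_roots'.1 hr).1
  have hroot : (derivative (cyclotomic n ℝ)).eval r = 0 := (mem_roots'.1 hr).2
  have hdeg : 0 < (cyclotomic n ℂ).degree := by
    apply natDegree_pos_iff_degree_pos.1
    rw [natDegree_cyclotomic]
    exact Nat.totient_pos.2 (by omega)
  have hder : derivative (cyclotomic n ℂ) = (derivative (cyclotomic n ℝ)).map Complex.ofRealHom := by
    rw [← map_cyclotomic n Complex.ofRealHom, derivative_map]
  have hc : (r : ℂ) ∈ (derivative (cyclotomic n ℂ)).rootSet ℂ := by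
    rw [mem_rootSet]
    refine ⟨?_, ?_⟩
    · rw [hder]
      exact (Polynomial.map_ne_zero_iff Complex.ofRealHom.injective).2 h0
    · rw [hder, aeval_def, eval₂_eq_eval_map, Polynomial.map_map]
      have : (algebraMap ℂ ℂ).comp Complex.ofRealHom = Complex.ofRealHom := by ext; simp
      rw [this, show (r : ℂ) = Complex.ofRealHom r from rfl, eval_map_apply, hroot, map_zero]
  have hsub := Polynomial.rootSet_derivative_subset_convexHull_rootSet hdeg hc
  have hroots : ∀ z ∈ (cyclotomic n ℂ).rootSet ℂ, -1 < z.re ∧ z.re < 1 := by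
    intro z hz
    rw [mem_rootSet] at hz
    have hz1 : IsRoot (cyclotomic n ℂ) z := by
      have := hz.2
      rwa [aeval_def, eval₂_eq_eval_map, Algebra.algebraMap_self, Polynomial.map_id] at this
    have : NeZero (n : ℂ) := ⟨by
      have : n ≠ 0 := by omega
      exact_mod_cast this⟩
    have hprim : IsPrimitiveRoot z n := (isRoot_cyclotomic_iff).1 hz1
    have hnorm : ‖z‖ = 1 := hprim.norm'_eq_one (by omega)
    have hne1 : z ≠ 1 := by
      rintro rfl
      have := hprim.unique IsPrimitiveRoot.one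
      omega
    have hne2 : z ≠ -1 := by
      rintro rfl
      have h2 : (-1 : ℂ) ^ 2 = 1 := by norm_num
      have := hprim.dvd_of_pow_eq_one 2 h2
      have := Nat.le_of_dvd (by norm_num) this
      omega
    have hsq : z.re ^ 2 + z.im ^ 2 = 1 := by
      have := Complex.sq_norm z
      rw [hnorm, Complex.normSq_apply] at this
      linarith
    have him : z.im ≠ 0 := by
      intro him
      rw [him] at hsq
      have : (z.re - 1) * (z.re + 1) = 0 := by nlinarith
      rcases mul_eq_zero.1 this with h | h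
      · exact hne1 (Complex.ext (by simp; linarith) (by simp [him]))
      · exact hne2 (Complex.ext (by simp; linarith) (by simp [him]))
    have : 0 < z.im ^ 2 := by positivity
    constructor <;> nlinarith
  have hconv : convexHull ℝ ((cyclotomic n ℂ).rootSet ℂ) ⊆ {z : ℂ | -1 < z.re} ∩ {z : ℂ | z.re < 1} := by
    apply convexHull_min
    · intro z hz
      exact hroots z hz
    · exact (convex_halfSpace_re_gt (-1)).inter (convex_halfSpace_re_lt 1)
  have := hconv hsub
  simpa using this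

lemma derivative_ne_zero {n : ℕ} (h1 : (cyclotomic n ℤ).coeff 1 ≠ 0) :
    (derivative (cyclotomic n ℝ)).coeff 0 ≠ 0 := by
  rw [coeff_derivative, ← map_cyclotomic_int, coeff_map]
  simp only [eq_intCast, zero_add, Nat.cast_zero, mul_one]
  exact_mod_cast h1

theorem N_le {l : List ℕ} (hl : ∀ p ∈ l, p.Prime) (hodd : ∀ p ∈ l, Odd p) (hl0 : l ≠ [])
    (hl2 : 2 < l.prod) (h1 : (cyclotomic l.prod ℤ).coeff 1 ≠ 0) {a b : ℕ}
    (ha : (derivative (cyclotomic l.prod ℝ)).roots.countP (fun r => 0 < r ∧ r < 1) ≤ a)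
    (hb : (derivative (cyclotomic (2 :: l).prod ℝ)).roots.countP (fun r => 0 < r ∧ r < 1) ≤ b) :
    N l.prod ≤ a + b := by
  classical
  have hc := derivative_ne_zero h1
  have h0 : derivative (cyclotomic l.prod ℝ) ≠ 0 := by
    intro h
    rw [h, coeff_zero] at hc
    exact hc rfl
  have h2 := countP_neg hl hodd hl0 h0
  unfold N
  set M := (derivative (cyclotomic l.prod ℝ)).roots with hM
  rw [Multiset.card_eq_countP_add_countP (fun r => 0 < r ∧ r < 1) M]
  have h3 : M.countP (fun r => ¬(0 < r ∧ r < 1)) = M.countP (fun r => -1 < r ∧ r < 0) := by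
    apply Multiset.countP_congr rfl
    intro r hr
    have h4 := roots_abs_lt hl2 hr
    have h5 : r ≠ 0 := by
      rintro rfl
      have h6 : (derivative (cyclotomic l.prod ℝ)).eval 0 = 0 := (mem_roots'.1 hr).2
      rw [← coeff_zero_eq_eval_zero] at h6
      exact hc h6
    simp only [eq_iff_iff]
    constructor
    · intro h
      refine ⟨h4.1, ?_⟩
      by_contra hc
      push Not at hc
      exact h ⟨lt_of_le_of_ne hc h5.symm, h4.2⟩
    · rintro ⟨_, h⟩ ⟨h', _⟩
      linarith
  rw [h3]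
  omega

/-! ### the sign of the derivative at rational points -/

def sd (a c : ℕ) : List ℕ → ℕ
  | [] => 1
  | e :: l => (c ^ e - a ^ e) * sd a c l

def sn (a c : ℕ) : List ℕ → ℕ
  | [] => 0
  | e :: l => e * a ^ e * sd a c l + (c ^ e - a ^ e) * sn a c l

lemma sd_eq {a c : ℕ} (hac : a < c) : ∀ l : List ℕ,
    (aeval ((a : ℝ) / c) (PP l)) * (c : ℝ) ^ l.sum = (-1) ^ l.length * sd a c l := by
  intro l
  have hc : (c : ℝ) ≠ 0 := by
    have : 0 < c := by omega
    positivity
  induction l with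
  | nil => simp [PP, sd]
  | cons e l ih =>
    rw [PP_cons, List.sum_cons, List.length_cons, sd, map_mul, pow_add, pow_succ]
    have h1 : a ^ e ≤ c ^ e := Nat.pow_le_pow_left hac.le e
    rw [Nat.cast_mul, Nat.cast_sub h1]
    have h2 : (aeval ((a : ℝ) / c)) ((X : ℤ[X]) ^ e - 1) * (c : ℝ) ^ e = (a : ℝ) ^ e - (c : ℝ) ^ e := by
      simp only [map_sub, map_pow, aeval_X, map_one, div_pow]
      field_simp
    push_cast
    linear_combination ((aeval ((a : ℝ) / c)) (PP l) * (c : ℝ) ^ l.sum) * h2 +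
      ((a : ℝ) ^ e - (c : ℝ) ^ e) * ih

lemma sn_eq {a c : ℕ} (hac : a < c) : ∀ l : List ℕ,
    (aeval ((a : ℝ) / c) (X * derivative (PP l))) * (c : ℝ) ^ l.sum = -(-1) ^ l.length * sn a c l := by
  intro l
  have hc : (c : ℝ) ≠ 0 := by
    have : 0 < c := by omega
    positivity
  induction l with
  | nil => simp [PP, sn]
  | cons e l ih =>
    have hs := sd_eq hac l
    have h1 : a ^ e ≤ c ^ e := Nat.pow_le_pow_left hac.le e
    have h0 : (X : ℤ[X]) * derivative (PP (e :: l)) = C (e : ℤ) * X ^ e * PP l +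
        (X ^ e - 1) * (X * derivative (PP l)) := by
      rw [PP_cons, derivative_mul, mul_add, derivative_sub, derivative_X_pow, derivative_one, sub_zero]
      rcases e with _ | e
      · simp
      · rw [Nat.add_sub_cancel, pow_succ]
        ring
    rw [h0, List.sum_cons, List.length_cons, sn, map_add, map_mul, map_mul (aeval ((a : ℝ) / c)) (X ^ e - 1),
      pow_add, pow_succ]
    have h2 : (aeval ((a : ℝ) / c)) ((X : ℤ[X]) ^ e - 1) * (c : ℝ) ^ e = (a : ℝ) ^ e - (c : ℝ) ^ e := by
      simp only [map_sub, map_pow, aeval_X, map_one, div_pow]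
      field_simp
    have h3 : (aeval ((a : ℝ) / c)) (C (e : ℤ) * (X : ℤ[X]) ^ e) * (c : ℝ) ^ e = e * (a : ℝ) ^ e := by
      simp only [map_mul, map_pow, aeval_X, aeval_C, div_pow]
      simp only [algebraMap_int_eq, eq_intCast, Int.cast_natCast]
      field_simp
    push_cast [Nat.cast_sub h1]
    linear_combination ((aeval ((a : ℝ) / c)) (PP l) * (c : ℝ) ^ l.sum) * h3 + (e * (a : ℝ) ^ e) * hs +
      ((aeval ((a : ℝ) / c)) (X * derivative (PP l)) * (c : ℝ) ^ l.sum) * h2 +
      ((a : ℝ) ^ e - (c : ℝ) ^ e) * ih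

/-- the check that the derivative is positive at `a / c` -/
def pos (a c : ℕ) (l : List ℕ) : Bool :=
  Nat.blt (sn a c (U l) * sd a c (V l)) (sd a c (U l) * sn a c (V l))

/-- the check that the derivative is negative at `a / c` -/
def neg (a c : ℕ) (l : List ℕ) : Bool :=
  Nat.blt (sd a c (U l) * sn a c (V l)) (sn a c (U l) * sd a c (V l))

lemma key {l : List ℕ} (hl : ∀ p ∈ l, p.Prime) (hl0 : l ≠ []) {a c : ℕ} (ha : 0 < a) (hac : a < c) :
    ∃ t : ℝ, 0 < t ∧ (derivative (cyclotomic l.prod ℝ)).eval ((a : ℝ) / c) * t =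
      (sd a c (U l) : ℝ) * sn a c (V l) - sn a c (U l) * sd a c (V l) := by
  have hc : 0 < c := by omega
  have hc' : (0 : ℝ) < c := by exact_mod_cast hc
  have ha' : (0 : ℝ) < a := by exact_mod_cast ha
  have h1 := cyc_mul l hl
  have h2 : (X * derivative (cyclotomic l.prod ℤ)) * PP (V l) * PP (V l) =
      (X * derivative (PP (U l))) * PP (V l) - PP (U l) * (X * derivative (PP (V l))) := by
    rw [← h1, derivative_mul]
    ring
  have hV := PP_ne_zero _ (pos_UV l hl).2
  have h3 := congrArg (aeval ((a : ℝ) / c)) h2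
  have e1 := sd_eq hac (U l)
  have e2 := sd_eq hac (V l)
  have e3 := sn_eq hac (U l)
  have e4 := sn_eq hac (V l)
  rw [len_UV l hl0] at e1 e3
  have hpow : ((-1 : ℝ) ^ (V l).length) ^ 2 = 1 := by
    rw [← pow_mul, mul_comm, pow_mul]; norm_num
  have hsd : (0 : ℝ) < sd a c (V l) := by
    have : ∀ m : List ℕ, (∀ e ∈ m, 0 < e) → 0 < sd a c m := by
      intro m
      induction m with
      | nil => intro _; exact Nat.one_pos
      | cons e m ih =>
        intro h
        rw [sd]
        have := Nat.pow_lt_pow_left hac (h e (by simp)).ne'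
        exact Nat.mul_pos (by omega) (ih fun x hx => h x (by simp [hx]))
    exact_mod_cast this (V l) (pos_UV l hl).2
  have hder : (aeval ((a : ℝ) / c)) (X * derivative (cyclotomic l.prod ℤ)) =
      (a : ℝ) / c * (derivative (cyclotomic l.prod ℝ)).eval ((a : ℝ) / c) := by
    rw [map_mul, aeval_X, ← map_cyclotomic_int l.prod ℝ, derivative_map, eval_map, aeval_def]
    rfl
  have hPV : (aeval ((a : ℝ) / c) (PP (V l))) ^ 2 * ((c : ℝ) ^ (V l).sum) ^ 2 = (sd a c (V l) : ℝ) ^ 2 := by
    rw [← mul_pow, e2, mul_pow, hpow, one_mul]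
  have hPV0 : 0 < (aeval ((a : ℝ) / c) (PP (V l))) ^ 2 := by
    have h5 : 0 < (aeval ((a : ℝ) / c) (PP (V l))) ^ 2 * ((c : ℝ) ^ (V l).sum) ^ 2 := by
      rw [hPV]; positivity
    exact pos_of_mul_pos_left h5 (by positivity)
  simp only [map_mul, map_sub] at h3 hder e3 e4
  refine ⟨(a : ℝ) / c * (aeval ((a : ℝ) / c) (PP (V l))) ^ 2 * (c : ℝ) ^ (U l).sum * (c : ℝ) ^ (V l).sum,
    by positivity, ?_⟩
  simp only [aeval_X] at h3 hder e3 e4
  generalize (aeval ((a : ℝ) / c)) (PP (V l)) = v at *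
  generalize (aeval ((a : ℝ) / c)) (PP (U l)) = u at *
  generalize (aeval ((a : ℝ) / c)) (derivative (PP (V l))) = v' at *
  generalize (aeval ((a : ℝ) / c)) (derivative (PP (U l))) = u' at *
  generalize (aeval ((a : ℝ) / c)) (derivative (cyclotomic l.prod ℤ)) = f at *
  generalize (derivative (cyclotomic l.prod ℝ)).eval ((a : ℝ) / c) = g at *
  generalize (c : ℝ) ^ (U l).sum = cu at *
  generalize (c : ℝ) ^ (V l).sum = cv' at *
  generalize (-1 : ℝ) ^ (V l).length = s at *
  generalize (a : ℝ) / c = x at *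
  -- x f v v = x u' v - u x v'
  have g1 : x * u' * cu * (v * cv') - u * cu * (x * v' * cv') =
      (sd a c (U l) : ℝ) * sn a c (V l) - sn a c (U l) * sd a c (V l) := by
    rw [e1, e2, e3, e4]
    linear_combination ((sd a c (U l) : ℝ) * sn a c (V l) - sn a c (U l) * sd a c (V l)) * hpow
  rw [← g1]
  linear_combination (cu * cv') * h3 - (v ^ 2 * cu * cv') * hder

lemma pos_of {l : List ℕ} (hl : ∀ p ∈ l, p.Prime) (hl0 : l ≠ []) {a c : ℕ} (ha : 0 < a) (hac : a < c)
    (h : pos a c l = true) : 0 < (derivative (cyclotomic l.prod ℝ)).eval ((a : ℝ) / c) := by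
  obtain ⟨t, ht, h1⟩ := key hl hl0 ha hac
  rw [pos, Nat.blt_eq] at h
  have h2 : ((sn a c (U l) * sd a c (V l) : ℕ) : ℝ) < ((sd a c (U l) * sn a c (V l) : ℕ) : ℝ) := by
    exact_mod_cast h
  push_cast at h2
  by_contra hc
  push Not at hc
  nlinarith [mul_nonneg (neg_nonneg.2 hc) ht.le]

lemma neg_of {l : List ℕ} (hl : ∀ p ∈ l, p.Prime) (hl0 : l ≠ []) {a c : ℕ} (ha : 0 < a) (hac : a < c)
    (h : neg a c l = true) : (derivative (cyclotomic l.prod ℝ)).eval ((a : ℝ) / c) < 0 := by
  obtain ⟨t, ht, h1⟩ := key hl hl0 ha hac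
  rw [neg, Nat.blt_eq] at h
  have h2 : ((sd a c (U l) * sn a c (V l) : ℕ) : ℝ) < ((sn a c (U l) * sd a c (V l) : ℕ) : ℝ) := by
    exact_mod_cast h
  push_cast at h2
  by_contra hc
  push Not at hc
  nlinarith [mul_nonneg hc ht.le]

lemma root_between {P : ℝ[X]} {x y : ℝ} (hxy : x < y) (h : P.eval x * P.eval y < 0) :
    ∃ r, x < r ∧ r < y ∧ P.eval r = 0 := by
  have hcont : ContinuousOn (fun t => P.eval t) (Set.Icc x y) := P.continuous.continuousOn
  rcases mul_neg_iff.1 h with ⟨h1, h2⟩ | ⟨h1, h2⟩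
  · obtain ⟨r, hr, hr0⟩ := intermediate_value_Ioo' hxy.le hcont (show (0 : ℝ) ∈ Set.Ioo _ _ from ⟨h2, h1⟩)
    exact ⟨r, hr.1, hr.2, hr0⟩
  · obtain ⟨r, hr, hr0⟩ := intermediate_value_Ioo hxy.le hcont (show (0 : ℝ) ∈ Set.Ioo _ _ from ⟨h1, h2⟩)
    exact ⟨r, hr.1, hr.2, hr0⟩

end Pool.Agent.X40.Cr
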