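import Mathlib

/-!
# Heights of divisors of `X ^ n - 1`

Basic facts on the height of an integer polynomial and on the maximal height `B n` of the divisors
of `X ^ n - 1`.
-/

set_option autoImplicit false

namespace Pool.Agent.X40

open Polynomial Finset

/-- the height of an integer polynomial: the largest absolute value of its coefficients -/
def H (f : ℤ[X]) : ℕ := f.support.sup (fun i => (f.coeff i).natAbs)

/-- the largest height of a divisor of `X ^ n - 1` in `ℤ[X]` -/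
noncomputable def B (n : ℕ) : ℕ := sSup {h : ℕ | ∃ f : ℤ[X], f ∣ X ^ n - 1 ∧ H f = h}

lemma le_H (f : ℤ[X]) (i : ℕ) : (f.coeff i).natAbs ≤ H f := by
  by_cases h : f.coeff i = 0
  · rw [h]; simp
  · exact Finset.le_sup (f := fun i => (f.coeff i).natAbs) (mem_support_iff.2 h)

lemma abs_le_H (f : ℤ[X]) (i : ℕ) : |f.coeff i| ≤ (H f : ℤ) := by
  have := le_H f i
  rw [Int.abs_eq_natAbs]
  exact_mod_cast this

lemma H_le {f : ℤ[X]} {h : ℕ} (hf : ∀ i, |f.coeff i| ≤ (h : ℤ)) : H f ≤ h := by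
  apply Finset.sup_le
  intro i _
  have := hf i
  rw [Int.abs_eq_natAbs] at this
  exact_mod_cast this

lemma H_le' {f : ℤ[X]} {h : ℕ} (hf : ∀ i, (f.coeff i).natAbs ≤ h) : H f ≤ h := by
  apply Finset.sup_le
  intro i _
  exact hf i

lemma H_le_iff {f : ℤ[X]} {h : ℕ} : H f ≤ h ↔ ∀ i, |f.coeff i| ≤ (h : ℤ) := by
  constructor
  · intro hf i
    have := abs_le_H f i
    omega
  · exact H_le

lemma H_neg (f : ℤ[X]) : H (-f) = H f := by
  unfold H
  simp

lemma exists_H (f : ℤ[X]) (hf : f ≠ 0) : ∃ i, (f.coeff i).natAbs = H f := by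
  obtain ⟨i, _, hi⟩ := Finset.exists_mem_eq_sup f.support (Polynomial.support_nonempty.2 hf)
    (fun i => (f.coeff i).natAbs)
  exact ⟨i, hi.symm⟩

lemma H_zero : H 0 = 0 := by simp [H]

/-- a divisor of a product of primes is associated to a subproduct -/
lemma dvd_prod_primes {ι : Type*} [DecidableEq ι] (s : Finset ι) (P : ι → ℤ[X])
    (hP : ∀ i ∈ s, Prime (P i)) (f : ℤ[X]) (hf : f ∣ ∏ i ∈ s, P i) :
    ∃ t ⊆ s, Associated f (∏ i ∈ t, P i) := by
  induction s using Finset.induction_on generalizing f with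
  | empty =>
    refine ⟨∅, by simp, ?_⟩
    simp only [prod_empty] at hf ⊢
    exact associated_one_iff_isUnit.2 (isUnit_of_dvd_one hf)
  | insert i s hi ih =>
    rw [prod_insert hi] at hf
    have hPi := hP i (mem_insert_self _ _)
    by_cases h : P i ∣ f
    · obtain ⟨g, rfl⟩ := h
      have hg : g ∣ ∏ i ∈ s, P i := (mul_dvd_mul_iff_left hPi.ne_zero).1 hf
      obtain ⟨t, ht, ha⟩ := ih (fun j hj => hP j (mem_insert_of_mem hj)) g hg
      refine ⟨insert i t, insert_subset_insert _ ht, ?_⟩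
      rw [prod_insert (fun h => hi (ht h))]
      exact Associated.mul_left _ ha
    · obtain ⟨c, hc⟩ := hf
      have h2 : P i ∣ f * c := ⟨_, hc.symm⟩
      rcases hPi.dvd_or_dvd h2 with h3 | ⟨c', rfl⟩
      · exact absurd h3 h
      · have h4 : f ∣ ∏ i ∈ s, P i := by
          refine ⟨c', mul_left_cancel₀ hPi.ne_zero ?_⟩
          rw [hc]; ring
        obtain ⟨t, ht, ha⟩ := ih (fun j hj => hP j (mem_insert_of_mem hj)) f h4
        exact ⟨t, ht.trans (subset_insert _ _), ha⟩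

/-- every divisor of `X ^ n - 1` is up to the sign a product of distinct cyclotomic polynomials -/
lemma dvd_X_pow_sub_one {n : ℕ} (hn : 0 < n) {f : ℤ[X]} (hf : f ∣ X ^ n - 1) :
    ∃ S ⊆ n.divisors, f = ∏ d ∈ S, cyclotomic d ℤ ∨ f = -∏ d ∈ S, cyclotomic d ℤ := by
  rw [← prod_cyclotomic_eq_X_pow_sub_one hn] at hf
  obtain ⟨t, ht, u, hu⟩ := dvd_prod_primes n.divisors (fun d => cyclotomic d ℤ) (fun i hi =>
    (cyclotomic.irreducible (Nat.pos_of_mem_divisors hi)).prime) f hf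
  refine ⟨t, ht, ?_⟩
  obtain ⟨c, hc, hcu⟩ := Polynomial.isUnit_iff.1 u.isUnit
  rcases Int.isUnit_iff.1 hc with rfl | rfl
  · left
    rw [← hu, ← hcu]; simp
  · right
    rw [← hu, ← hcu]; simp

lemma prod_cyc_dvd {n : ℕ} (hn : 0 < n) {S : Finset ℕ} (hS : S ⊆ n.divisors) :
    ∏ d ∈ S, cyclotomic d ℤ ∣ X ^ n - 1 := by
  rw [← prod_cyclotomic_eq_X_pow_sub_one hn]
  exact prod_dvd_prod_of_subset _ _ _ hS

/-- the set of the heights of the divisors is the set of the heights of the products of distinct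
cyclotomic polynomials -/
lemma heights_eq {n : ℕ} (hn : 0 < n) : {h : ℕ | ∃ f : ℤ[X], f ∣ X ^ n - 1 ∧ H f = h} =
    ((n.divisors.powerset.image (fun S => H (∏ d ∈ S, cyclotomic d ℤ)) : Finset ℕ) : Set ℕ) := by
  ext h
  simp only [Set.mem_ofPred_eq, coe_image, Set.mem_image, mem_coe, mem_powerset]
  constructor
  · rintro ⟨f, hf, rfl⟩
    obtain ⟨S, hS, h | h⟩ := dvd_X_pow_sub_one hn hf
    · exact ⟨S, hS, by rw [h]⟩
    · exact ⟨S, hS, by rw [h, H_neg]⟩
  · rintro ⟨S, hS, rfl⟩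
    exact ⟨_, prod_cyc_dvd hn hS, rfl⟩

lemma bdd {n : ℕ} (hn : 0 < n) : BddAbove {h : ℕ | ∃ f : ℤ[X], f ∣ X ^ n - 1 ∧ H f = h} := by
  rw [heights_eq hn]
  exact Finset.bddAbove _

lemma le_B {n : ℕ} (hn : 0 < n) {f : ℤ[X]} (hf : f ∣ X ^ n - 1) : H f ≤ B n :=
  le_csSup (bdd hn) ⟨f, hf, rfl⟩

lemma le_B' {n : ℕ} (hn : 0 < n) {S : Finset ℕ} (hS : S ⊆ n.divisors) :
    H (∏ d ∈ S, cyclotomic d ℤ) ≤ B n := le_B hn (prod_cyc_dvd hn hS)

lemma B_le {n : ℕ} (hn : 0 < n) {h : ℕ} (hS : ∀ S ⊆ n.divisors, H (∏ d ∈ S, cyclotomic d ℤ) ≤ h) :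
    B n ≤ h := by
  apply csSup_le
  · exact ⟨_, 1, one_dvd _, rfl⟩
  · rintro _ ⟨f, hf, rfl⟩
    obtain ⟨S, hS', h1 | h1⟩ := dvd_X_pow_sub_one hn hf
    · rw [h1]; exact hS S hS'
    · rw [h1, H_neg]; exact hS S hS'

/-- the maximum is attained -/
lemma exists_B {n : ℕ} (hn : 0 < n) : ∃ S ⊆ n.divisors, H (∏ d ∈ S, cyclotomic d ℤ) = B n := by
  have h1 : B n ∈ {h : ℕ | ∃ f : ℤ[X], f ∣ X ^ n - 1 ∧ H f = h} :=
    Nat.sSup_mem ⟨_, 1, one_dvd _, rfl⟩ (bdd hn)
  rw [heights_eq hn] at h1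
  simp only [coe_image, Set.mem_image, mem_coe, mem_powerset] at h1
  exact h1

end Pool.Agent.X40
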