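import Pool.Agent.X40.Ht

/-!
# Heights of products of cyclotomic polynomials by Kronecker substitution
-/

set_option autoImplicit false

namespace Pool.Agent.X40.Kr

open Polynomial Finset

/-- multiplication by `Q` increases the height at most by the factor `c` -/
def MB (Q : ℤ[X]) (c : ℕ) : Prop := ∀ F : ℤ[X], H (F * Q) ≤ c * H F

lemma MB_one : MB 1 1 := by
  intro F; simp

lemma MB_mul {P Q : ℤ[X]} {c d : ℕ} (hP : MB P c) (hQ : MB Q d) : MB (P * Q) (c * d) := by
  intro F
  rw [← mul_assoc]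
  calc H (F * P * Q) ≤ d * H (F * P) := hQ _
    _ ≤ d * (c * H F) := Nat.mul_le_mul_left _ (hP F)
    _ = c * d * H F := by ring

lemma MB_X (e : ℕ) : MB (X ^ e - 1) 2 := by
  intro F
  apply H_le
  intro i
  rw [mul_sub, mul_one, coeff_sub, coeff_mul_X_pow']
  have h2 := abs_le_H F i
  split_ifs with h
  · have h1 := abs_le_H F (i - e)
    rw [abs_le] at h1 h2 ⊢
    push_cast
    constructor <;> linarith
  · have h0 : (0 : ℤ) ≤ H F := by positivity
    rw [abs_le] at h2 ⊢
    push_cast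
    constructor <;> linarith

/-- the product of the `X ^ e - 1` for `e` in the list -/
noncomputable def PP (l : List ℕ) : ℤ[X] := (l.map (fun e => (X : ℤ[X]) ^ e - 1)).prod

lemma PP_nil : PP [] = 1 := rfl

lemma PP_cons (e : ℕ) (l : List ℕ) : PP (e :: l) = (X ^ e - 1) * PP l := by
  simp [PP]

lemma PP_append (l m : List ℕ) : PP (l ++ m) = PP l * PP m := by
  simp [PP]

lemma PP_map (p : ℕ) (l : List ℕ) : PP (l.map (fun e => p * e)) = expand ℤ p (PP l) := by
  induction l with
  | nil => simp [PP]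
  | cons e l ih =>
    rw [List.map_cons, PP_cons, PP_cons, ih, map_mul, map_sub, map_pow, expand_X, map_one, pow_mul]

lemma MB_PP (l : List ℕ) : MB (PP l) (2 ^ l.length) := by
  induction l with
  | nil => exact MB_one
  | cons e l ih =>
    rw [PP_cons, List.length_cons, pow_succ']
    exact MB_mul (MB_X e) ih

mutual
/-- the exponents of the numerator of the cyclotomic polynomial -/
def U : List ℕ → List ℕ
  | [] => [1]
  | p :: l => if p ∈ l then (U l).map (fun e => p * e) else (U l).map (fun e => p * e) ++ V l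
/-- the exponents of the denominator of the cyclotomic polynomial -/
def V : List ℕ → List ℕ
  | [] => []
  | p :: l => if p ∈ l then (V l).map (fun e => p * e) else (V l).map (fun e => p * e) ++ U l
end

lemma pos_UV (l : List ℕ) (hl : ∀ p ∈ l, p.Prime) : (∀ e ∈ U l, 0 < e) ∧ (∀ e ∈ V l, 0 < e) := by
  induction l with
  | nil => simp [U, V]
  | cons p l ih =>
    have hp : 0 < p := (hl p (by simp)).pos
    obtain ⟨h1, h2⟩ := ih (fun q hq => hl q (by simp [hq]))
    constructor
    · intro e he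
      rw [U] at he
      split_ifs at he
      · rw [List.mem_map] at he
        obtain ⟨a, ha, rfl⟩ := he
        exact Nat.mul_pos hp (h1 a ha)
      · rw [List.mem_append, List.mem_map] at he
        rcases he with ⟨a, ha, rfl⟩ | he
        · exact Nat.mul_pos hp (h1 a ha)
        · exact h2 e he
    · intro e he
      rw [V] at he
      split_ifs at he
      · rw [List.mem_map] at he
        obtain ⟨a, ha, rfl⟩ := he
        exact Nat.mul_pos hp (h2 a ha)
      · rw [List.mem_append, List.mem_map] at he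
        rcases he with ⟨a, ha, rfl⟩ | he
        · exact Nat.mul_pos hp (h2 a ha)
        · exact h1 e he

lemma cyc_mul (l : List ℕ) (hl : ∀ p ∈ l, p.Prime) : cyclotomic l.prod ℤ * PP (V l) = PP (U l) := by
  induction l with
  | nil => simp [U, V, PP]
  | cons p l ih =>
    have hp := hl p (by simp)
    have hl' : ∀ q ∈ l, q.Prime := fun q hq => hl q (by simp [hq])
    have ih := ih hl'
    have h1 : expand ℤ p (cyclotomic l.prod ℤ) * PP ((V l).map (fun e => p * e)) =
        PP ((U l).map (fun e => p * e)) := by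
      rw [PP_map, PP_map, ← ih, map_mul]
    rw [U, V, List.prod_cons]
    by_cases h : p ∈ l
    · rw [if_pos h, if_pos h, ← h1, cyclotomic_expand_eq_cyclotomic hp (List.dvd_prod h), mul_comm p]
    · rw [if_neg h, if_neg h, PP_append, PP_append, ← h1, ← ih,
        cyclotomic_expand_eq_cyclotomic_mul hp, mul_comm p]
      · ring
      · intro h2
        obtain ⟨q, hq, hpq⟩ := (Nat.prime_iff.1 hp).dvd_prod_iff.1 h2
        rw [(Nat.prime_dvd_prime_iff_eq hp (hl' q hq)).1 hpq] at h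
        exact h hq

/-- the value of `PP l` at `B` -/
def ev (B : ℕ) (l : List ℕ) : ℕ := l.foldr (fun e r => (B ^ e - 1) * r) 1

lemma ev_eq (B : ℕ) (hB : 0 < B) (l : List ℕ) : (PP l).eval (B : ℤ) = (ev B l : ℤ) := by
  induction l with
  | nil => simp [PP, ev]
  | cons e l ih =>
    rw [PP_cons, eval_mul, ih, eval_sub, eval_pow, eval_X, eval_one]
    show _ = (((B ^ e - 1) * ev B l : ℕ) : ℤ)
    rw [Nat.cast_mul, Nat.cast_sub (Nat.one_le_pow _ _ hB)]
    push_cast
    ring

lemma ev_pos (B : ℕ) (hB : 1 < B) (l : List ℕ) (hl : ∀ e ∈ l, 0 < e) : 0 < ev B l := by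
  induction l with
  | nil => simp [ev]
  | cons e l ih =>
    show 0 < (B ^ e - 1) * ev B l
    have h1 : 1 < B ^ e := Nat.one_lt_pow (hl e (by simp)).ne' hB
    exact Nat.mul_pos (by omega) (ih fun a ha => hl a (by simp [ha]))

/-- the value at `B` of the cyclotomic polynomial of index `l.prod` -/
def cv (B : ℕ) (l : List ℕ) : ℕ := ev B (U l) / ev B (V l)

lemma cv_eq (B : ℕ) (hB : 1 < B) (l : List ℕ) (hl : ∀ p ∈ l, p.Prime) :
    (cyclotomic l.prod ℤ).eval (B : ℤ) = (cv B l : ℤ) := by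
  have h1 := congrArg (eval (B : ℤ)) (cyc_mul l hl)
  rw [eval_mul, ev_eq B (by omega), ev_eq B (by omega)] at h1
  have h2 := ev_pos B hB (V l) (pos_UV l hl).2
  unfold cv
  rw [Int.natCast_div, ← h1, Int.mul_ediv_cancel]
  positivity

lemma PP_ne_zero (l : List ℕ) (hl : ∀ e ∈ l, 0 < e) : PP l ≠ 0 := by
  intro h
  have h1 := ev_eq 2 (by norm_num) l
  have h2 := ev_pos 2 (by norm_num) l hl
  rw [h, eval_zero] at h1
  omega

/-- a polynomial with small coefficients vanishing at `B` is zero -/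
lemma eq_zero_of_eval {B : ℕ} {Q : ℤ[X]} (hB : 0 < B) (h : Q.eval (B : ℤ) = 0) (hQ : H Q < B) :
    Q = 0 := by
  have key : ∀ i, Q.coeff i = 0 := by
    intro i
    induction i using Nat.strong_induction_on with
    | _ i ih =>
      obtain ⟨R, hR⟩ := (X_pow_dvd_iff (R := ℤ) (n := i)).2 ih
      have h1 : Q.coeff i = R.coeff 0 := by
        rw [hR, coeff_X_pow_mul' , if_pos le_rfl, Nat.sub_self]
      have h2 : R.eval (B : ℤ) = 0 := by
        rw [hR, eval_mul, eval_pow, eval_X] at h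
        have : (B : ℤ) ^ i ≠ 0 := by positivity
        exact (mul_eq_zero.1 h).resolve_left this
      rw [← divX_mul_X_add R, eval_add, eval_mul, eval_X, eval_C] at h2
      have h3 : (B : ℤ) ∣ R.coeff 0 := ⟨-(R.divX.eval (B : ℤ)), by linarith⟩
      rw [h1]
      apply Int.eq_zero_of_abs_lt_dvd h3
      rw [← h1]
      have := abs_le_H Q i
      have h4 : (H Q : ℤ) < B := by exact_mod_cast hQ
      linarith
  ext i
  simp [key i]

/-- `1 + B + ... + B ^ (n - 1)` for `B = 2 ^ K` -/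
def J (K n : ℕ) : ℕ := (2 ^ (K * n) - 1) / (2 ^ K - 1)

lemma J_eq {K : ℕ} (hK : 0 < K) (n : ℕ) : J K n = ∑ i ∈ range n, (2 ^ K) ^ i := by
  rw [Nat.geomSum_eq]
  · rw [J, pow_mul]
  · exact (Nat.one_lt_pow hK.ne' (by norm_num))

lemma J_succ {K : ℕ} (hK : 0 < K) (n : ℕ) : J K (n + 1) = 2 ^ K * J K n + 1 := by
  rw [J_eq hK, J_eq hK, sum_range_succ', mul_sum]
  congr 1
  apply sum_congr rfl
  intro i _
  rw [pow_succ']

lemma land_split {K a b c d : ℕ} (hb : b < 2 ^ K) (hd : d < 2 ^ K) :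
    (2 ^ K * a + b) &&& (2 ^ K * c + d) = 2 ^ K * (a &&& c) + (b &&& d) := by
  apply Nat.eq_of_testBit_eq
  intro j
  rw [Nat.testBit_and, Nat.testBit_two_pow_mul_add _ hb, Nat.testBit_two_pow_mul_add _ hd,
    Nat.testBit_two_pow_mul_add _ (Nat.lt_of_le_of_lt Nat.and_le_left hb)]
  split_ifs <;> rw [Nat.testBit_and]

lemma lt_of_land {K d : ℕ} (hK : 0 < K) (hd : d < 2 ^ K) (h : d &&& 2 ^ (K - 1) = 0) : d < 2 ^ (K - 1) := by
  by_contra hc
  push Not at hc
  have h1 : d.testBit (K - 1) = true := by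
    rw [Nat.testBit_eq_decide_div_mod_eq]
    have h2 : d / 2 ^ (K - 1) = 1 := by
      apply Nat.div_eq_of_lt_le
      · omega
      · have : 2 ^ K = 2 ^ (K - 1) * 2 := by rw [← pow_succ]; congr 1; omega
        omega
    rw [h2]
    rfl
  have h3 : (d &&& 2 ^ (K - 1)).testBit (K - 1) = true := by
    rw [Nat.testBit_and, h1, Nat.testBit_two_pow_self]
    rfl
  rw [h, Nat.zero_testBit] at h3
  exact absurd h3 (by simp)

lemma digits_le {K c : ℕ} (hK : 0 < K) (hc : c < 2 ^ (K - 1)) (n : ℕ) : ∀ M : ℕ,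
    M &&& (2 ^ (K - 1) * J K n) = 0 → (M + c * J K n) &&& (2 ^ (K - 1) * J K n) = 0 →
    ∀ i < n, M / (2 ^ K) ^ i % 2 ^ K + c < 2 ^ (K - 1) := by
  have h2K : 2 ^ K = 2 ^ (K - 1) * 2 := by rw [← pow_succ]; congr 1; omega
  have hpos : 0 < 2 ^ (K - 1) := by positivity
  induction n with
  | zero => intro M _ _ i hi; omega
  | succ n ih =>
    intro M h1 h2 i hi
    set M1 := M / 2 ^ K with hM1
    set d := M % 2 ^ K with hd
    have hM : M = 2 ^ K * M1 + d := (Nat.div_add_mod M (2 ^ K)).symm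
    have hdlt : d < 2 ^ K := Nat.mod_lt _ (by positivity)
    have e1 : 2 ^ (K - 1) * J K (n + 1) = 2 ^ K * (2 ^ (K - 1) * J K n) + 2 ^ (K - 1) := by
      rw [J_succ hK]; ring
    rw [e1] at h1 h2
    have h3 : M &&& (2 ^ K * (2 ^ (K - 1) * J K n) + 2 ^ (K - 1)) =
        2 ^ K * (M1 &&& (2 ^ (K - 1) * J K n)) + (d &&& 2 ^ (K - 1)) := by
      rw [← land_split hdlt (by omega), ← hM]
    rw [h3] at h1
    have h4 : M1 &&& (2 ^ (K - 1) * J K n) = 0 := by
      have h5 := (Nat.add_eq_zero_iff.1 h1).1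
      exact (Nat.mul_eq_zero.1 h5).resolve_left (by positivity)
    have h5 : d &&& 2 ^ (K - 1) = 0 := (Nat.add_eq_zero_iff.1 h1).2
    have h6 : d < 2 ^ (K - 1) := lt_of_land hK hdlt h5
    have h7 : M + c * J K (n + 1) = 2 ^ K * (M1 + c * J K n) + (d + c) := by
      rw [J_succ hK]
      conv_lhs => rw [hM]
      ring
    have h8 : d + c < 2 ^ K := by omega
    rw [h7, land_split h8 (by omega)] at h2
    have h9 : (M1 + c * J K n) &&& (2 ^ (K - 1) * J K n) = 0 := by
      have h5 := (Nat.add_eq_zero_iff.1 h2).1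
      exact (Nat.mul_eq_zero.1 h5).resolve_left (by positivity)
    have h10 : (d + c) &&& 2 ^ (K - 1) = 0 := (Nat.add_eq_zero_iff.1 h2).2
    have h11 := lt_of_land hK h8 h10
    rcases i with _ | i
    · rw [pow_zero, Nat.div_one]
      exact h11
    · have := ih M1 h4 h9 i (by omega)
      rw [pow_succ', ← Nat.div_div_eq_div_mul]
      exact this

lemma expansion (B : ℕ) (n M : ℕ) :
    M = ∑ i ∈ range n, M / B ^ i % B * B ^ i + B ^ n * (M / B ^ n) := by
  induction n with
  | zero => simp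
  | succ n ih =>
    rw [sum_range_succ]
    conv_lhs => rw [ih]
    have h1 := Nat.div_add_mod (M / B ^ n) B
    rw [add_assoc, pow_succ, ← Nat.div_div_eq_div_mul]
    congr 1
    conv_lhs => rw [← h1]
    ring

/-- the check that the digits of `a + h J` are at most `2 h` -/
def chk (K n h a : ℕ) : Bool :=
  Nat.ble (2 * h + 1) (2 ^ (K - 1)) && Nat.blt (a + h * J K n) (2 ^ (K * n)) &&
  Nat.beq ((a + h * J K n) &&& (2 ^ (K - 1) * J K n)) 0 &&
  Nat.beq ((a + h * J K n + (2 ^ (K - 1) - 1 - 2 * h) * J K n) &&& (2 ^ (K - 1) * J K n)) 0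

/-- the `i`-th coefficient of the polynomial with the value `a` at `2 ^ K` -/
def dig (K n h a i : ℕ) : ℤ := ((a + h * J K n) / (2 ^ (K * i)) % 2 ^ K : ℕ) - (h : ℤ)

theorem main {K n h a g c : ℕ} {A G P : ℤ[X]} (hK : 0 < K) (hG0 : G ≠ 0) (hAG : A * G = P)
    (hG : MB G g) (hP : MB P c) (ha : A.eval ((2 ^ K : ℕ) : ℤ) = a) (hB : g * h + c < 2 ^ K)
    (hchk : chk K n h a = true) :
    H A ≤ h ∧ ∀ i < n, A.coeff i = dig K n h a i := by
  unfold chk at hchk
  rw [Bool.and_eq_true, Bool.and_eq_true, Bool.and_eq_true] at hchk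
  obtain ⟨⟨⟨h1, h2⟩, h3⟩, h4⟩ := hchk
  have h1 := Nat.le_of_ble_eq_true h1
  rw [Nat.blt_eq] at h2
  have h3 := Nat.eq_of_beq_eq_true h3
  have h4 := Nat.eq_of_beq_eq_true h4
  set M := a + h * J K n with hM
  have hd := digits_le hK (by omega) n M h3 h4
  have hexp := expansion (2 ^ K) n M
  rw [Nat.div_eq_of_lt (show M < (2 ^ K) ^ n by rwa [← pow_mul]), mul_zero, add_zero] at hexp
  set F : ℤ[X] := ∑ i ∈ range n, C ((M / (2 ^ K) ^ i % 2 ^ K : ℕ) - (h : ℤ)) * X ^ i with hF
  have hcF : ∀ i, F.coeff i = if i < n then ((M / (2 ^ K) ^ i % 2 ^ K : ℕ) - (h : ℤ)) else 0 := by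
    intro i
    rw [hF, finsetSum_coeff]
    simp_rw [coeff_C_mul_X_pow]
    rw [sum_ite_eq]
    simp only [mem_range]
  have hHF : H F ≤ h := by
    apply H_le
    intro i
    rw [hcF]
    split_ifs with hi
    · have := hd i hi
      rw [abs_le]
      constructor <;> omega
    · simp
  have hev : F.eval ((2 ^ K : ℕ) : ℤ) = a := by
    rw [hF, eval_finsetSum]
    simp only [eval_mul, eval_C, eval_pow, eval_X, sub_mul, sum_sub_distrib]
    rw [← mul_sum]
    have e1 : (∑ i ∈ range n, ((M / (2 ^ K) ^ i % 2 ^ K : ℕ) : ℤ) * ((2 ^ K : ℕ) : ℤ) ^ i) = (M : ℤ) := by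
      conv_rhs => rw [hexp]
      push_cast
      rfl
    have e2 : (∑ i ∈ range n, ((2 ^ K : ℕ) : ℤ) ^ i) = (J K n : ℤ) := by
      rw [J_eq hK]
      push_cast
      rfl
    rw [e1, e2, hM]
    push_cast
    ring
  have hz : F * G - P = 0 := by
    apply eq_zero_of_eval (B := 2 ^ K) (by positivity)
    · rw [eval_sub, eval_mul, hev, ← hAG, eval_mul, ha, sub_self]
    · have e1 := hG F
      have e2 := hP 1
      rw [one_mul] at e2
      have e3 : H (1 : ℤ[X]) ≤ 1 := by
        apply H_le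
        intro i
        rw [coeff_one]
        split_ifs <;> simp
      have e4 : g * H F ≤ g * h := Nat.mul_le_mul_left _ hHF
      have e5 : c * H (1 : ℤ[X]) ≤ c * 1 := Nat.mul_le_mul_left _ e3
      have e6 : H (F * G - P) ≤ H (F * G) + H P := by
        apply H_le
        intro i
        have f1 := abs_le_H (F * G) i
        have f2 := abs_le_H P i
        rw [coeff_sub]
        rw [abs_le] at f1 f2 ⊢
        push_cast
        constructor <;> linarith
      omega
  have hFA : F = A := by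
    apply mul_right_cancel₀ hG0
    rw [hAG]
    linear_combination hz
  refine ⟨hFA ▸ hHF, fun i hi => ?_⟩
  rw [← hFA, hcF, if_pos hi, dig, pow_mul]

/-- the product of the cyclotomic polynomials of the indices given by lists of prime factors -/
noncomputable def CP (S : List (List ℕ)) : ℤ[X] := (S.map fun l => cyclotomic l.prod ℤ).prod

/-- its value at `B` -/
def val (B : ℕ) (S : List (List ℕ)) : ℕ := S.foldr (fun l r => cv B l * r) 1

/-- the number of the factors in the denominators -/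
def lenV (S : List (List ℕ)) : ℕ := S.foldr (fun l r => (V l).length + r) 0

/-- the number of the factors in the numerators -/
def lenU (S : List (List ℕ)) : ℕ := S.foldr (fun l r => (U l).length + r) 0

lemma CP_cons (l : List ℕ) (S : List (List ℕ)) : CP (l :: S) = cyclotomic l.prod ℤ * CP S := by
  simp [CP]

lemma val_eq (B : ℕ) (hB : 1 < B) (S : List (List ℕ)) (hS : ∀ l ∈ S, ∀ p ∈ l, p.Prime) :
    (CP S).eval (B : ℤ) = (val B S : ℤ) := by
  induction S with
  | nil => simp [CP, val]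
  | cons l S ih =>
    rw [CP_cons, eval_mul, cv_eq B hB l (hS l (by simp)), ih fun m hm => hS m (by simp [hm])]
    show _ = ((cv B l * val B S : ℕ) : ℤ)
    push_cast
    ring

/-- what is needed about the polynomial `A` with the value `a` at `B` -/
def Adm (B : ℕ) (A : ℤ[X]) (a v u : ℕ) : Prop :=
  A.eval (B : ℤ) = a ∧ ∃ G P : ℤ[X], G ≠ 0 ∧ A * G = P ∧ MB G (2 ^ v) ∧ MB P (2 ^ u)

lemma Adm.one (B : ℕ) : Adm B 1 1 0 0 := by
  refine ⟨by simp, 1, 1, one_ne_zero, by simp, ?_, ?_⟩ <;> rw [pow_zero] <;> exact MB_one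

lemma Adm.mul {B : ℕ} {A A' : ℤ[X]} {a a' v v' u u' : ℕ} (h : Adm B A a v u) (h' : Adm B A' a' v' u') :
    Adm B (A * A') (a * a') (v + v') (u + u') := by
  obtain ⟨h1, G, P, hG, hGP, hG2, hP⟩ := h
  obtain ⟨h1', G', P', hG', hGP', hG2', hP'⟩ := h'
  refine ⟨by rw [eval_mul, h1, h1']; push_cast; rfl, G * G', P * P', mul_ne_zero hG hG', ?_, ?_, ?_⟩
  · rw [← hGP, ← hGP']; ring
  · rw [pow_add]; exact MB_mul hG2 hG2'
  · rw [pow_add]; exact MB_mul hP hP'

lemma Adm.cyc {B : ℕ} (hB : 1 < B) {l : List ℕ} (hl : ∀ p ∈ l, p.Prime) :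
    Adm B (cyclotomic l.prod ℤ) (cv B l) (V l).length (U l).length :=
  ⟨cv_eq B hB l hl, PP (V l), PP (U l), PP_ne_zero _ (pos_UV l hl).2, cyc_mul l hl, MB_PP _, MB_PP _⟩

lemma Adm.list {B : ℕ} (hB : 1 < B) {S : List (List ℕ)} (hS : ∀ l ∈ S, ∀ p ∈ l, p.Prime) :
    Adm B (CP S) (val B S) (lenV S) (lenU S) := by
  induction S with
  | nil => exact Adm.one B
  | cons l S ih =>
    rw [CP_cons]
    exact (Adm.cyc hB (hS l (by simp))).mul (ih fun m hm => hS m (by simp [hm]))

theorem Adm.height {K n h a v u : ℕ} {A : ℤ[X]} (hK : 0 < K) (hA : Adm (2 ^ K) A a v u)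
    (hB : 2 ^ v * h + 2 ^ u < 2 ^ K) (hchk : chk K n h a = true) :
    H A ≤ h ∧ ∀ i < n, A.coeff i = dig K n h a i := by
  obtain ⟨h1, G, P, hG, hGP, hG2, hP⟩ := hA
  exact main hK hG hGP hG2 hP h1 hB hchk

end Pool.Agent.X40.Kr
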