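import Pool.Agent.X40.Kron

/-!
# Heights by Kronecker substitution: a variant of the check for large degrees

The exponents of the powers computed by the kernel are kept below `2 ^ 24`.
-/

set_option autoImplicit false

namespace Pool.Agent.X40.Kr

open Polynomial Finset

/-- the same as `J` -/
def J2 (B n : ℕ) : ℕ := (B ^ n - 1) / (B - 1)

/-- the check for given values of `B = 2 ^ K`, `J` and `T = 2 ^ (K - 1)` -/
def chkAux (B n h a T J : ℕ) : Bool :=
  Nat.ble (2 * h + 1) T && Nat.blt (a + h * J) (B ^ n) &&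
  Nat.beq ((a + h * J) &&& (T * J)) 0 &&
  Nat.beq ((a + h * J + (T - 1 - 2 * h) * J) &&& (T * J)) 0

/-- the check -/
def chk2 (K n h a : ℕ) : Bool := chkAux (2 ^ K) n h a (2 ^ (K - 1)) (J2 (2 ^ K) n)

/-- the coefficient -/
def dig2 (K n h a i : ℕ) : ℤ := ((a + h * J2 (2 ^ K) n) / ((2 ^ K) ^ i) % 2 ^ K : ℕ) - (h : ℤ)

lemma J2_eq (K n : ℕ) : J2 (2 ^ K) n = J K n := by rw [J2, J, pow_mul]

lemma chk2_eq (K n h a : ℕ) : chk2 K n h a = chk K n h a := by
  rw [chk2, chkAux, chk, J2_eq, pow_mul]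

lemma dig2_eq (K n h a i : ℕ) : dig2 K n h a i = dig K n h a i := by
  rw [dig2, dig, J2_eq, pow_mul]

theorem Adm.height2 {K n h a v u : ℕ} {A : ℤ[X]} (hK : 0 < K) (hA : Adm (2 ^ K) A a v u)
    (hB : 2 ^ v * h + 2 ^ u < 2 ^ K) (hchk : chk2 K n h a = true) :
    H A ≤ h ∧ ∀ i < n, A.coeff i = dig2 K n h a i := by
  rw [chk2_eq] at hchk
  simp_rw [dig2_eq]
  exact hA.height hK hB hchk

end Pool.Agent.X40.Kr
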