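import Mathlib

/-!
# The determinants `det [(j² - k²)^m ((j² - k²) / p)]` modulo `p`
-/

set_option autoImplicit false

namespace Pool.Agent.X40.LD

open Finset Matrix

/-- the determinant `D_p^(m)`: the rows and columns are indexed by `1 ≤ j, k ≤ (p - 1) / 2` -/
def D (m p : ℕ) : ℤ :=
  Matrix.det (Matrix.of fun j k : Fin ((p - 1) / 2) =>
    (((j : ℤ) + 1) ^ 2 - ((k : ℤ) + 1) ^ 2) ^ m * jacobiSym (((j : ℤ) + 1) ^ 2 - ((k : ℤ) + 1) ^ 2) p)

/-- the coefficient of `x ^ a y ^ (m - a)` in `(x - y) ^ (m + n)` if `x ^ n = y ^ n = 1` -/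
def c (m n p : ℕ) [NeZero n] (a : Fin n) : ZMod p :=
  ∑ i ∈ (range (m + n + 1)).filter (fun i => Fin.ofNat n i = a), (-1) ^ (m + n - i) * ((m + n).choose i : ZMod p)

lemma pow_mod_eq {R : Type*} [Monoid R] {x : R} {n : ℕ} (hx : x ^ n = 1) (i : ℕ) : x ^ i = x ^ (i % n) := by
  conv_lhs => rw [← Nat.mod_add_div i n, pow_add, pow_mul, hx, one_pow, mul_one]

lemma entry (m n p : ℕ) [NeZero n] (x y : ZMod p) (hx : x ^ n = 1) (hy : y ^ n = 1) :
    (x - y) ^ (m + n) = ∑ a : Fin n, c m n p a * (x ^ (a : ℕ) * y ^ ((Fin.ofNat n m - a : Fin n) : ℕ)) := by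
  have hn : 0 < n := Nat.pos_of_ne_zero (NeZero.ne n)
  rw [sub_eq_add_neg, add_pow]
  unfold c
  simp_rw [sum_mul]
  rw [sum_comm' (s := univ) (t := fun a => (range (m + n + 1)).filter (fun i => Fin.ofNat n i = a))
    (t' := range (m + n + 1)) (s' := fun i => {Fin.ofNat n i})]
  · apply sum_congr rfl
    intro i hi
    rw [mem_range] at hi
    rw [sum_singleton, neg_pow]
    have e1 : x ^ i = x ^ ((Fin.ofNat n i : Fin n) : ℕ) := by
      rw [pow_mod_eq hx]; rfl
    have e2 : y ^ (m + n - i) = y ^ ((Fin.ofNat n m - Fin.ofNat n i : Fin n) : ℕ) := by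
      rw [pow_mod_eq hy]
      congr 1
      rw [Fin.sub_def]
      simp only [Fin.ofNat_eq_cast, Fin.val_natCast]
      have h1 := Nat.mod_lt i hn
      have h2 := Nat.mod_add_div i n
      have h4 : (m + n - i) + i ≡ (n - i % n + m % n) + i [MOD n] := by
        have e3 : (m + n - i) + i = m + n := by omega
        have e4 : (n - i % n + m % n) + i = m % n + n * (1 + i / n) := by
          rw [mul_add]; omega
        rw [e3, e4]
        unfold Nat.ModEq
        rw [Nat.add_mul_mod_self_left, Nat.mod_mod, Nat.add_mod_right]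
      exact Nat.ModEq.add_right_cancel' i h4
    rw [← e1, ← e2]
    ring
  · intro a i
    simp only [mem_univ, true_and, mem_filter, mem_range, mem_singleton]
    tauto


/-- `p ∣ D_p^(m)` if and only if one of the `c_a` vanishes modulo `p` -/
theorem dvd_iff (m p : ℕ) (hp : p.Prime) (hp2 : p ≠ 2) [NeZero ((p - 1) / 2)] :
    (p : ℤ) ∣ D m p ↔ ∃ a : Fin ((p - 1) / 2), c m ((p - 1) / 2) p a = 0 := by
  have : Fact p.Prime := ⟨hp⟩
  set n := (p - 1) / 2 with hn
  have hodd : p % 2 = 1 := by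
    rcases hp.eq_two_or_odd with h | h
    · exact absurd h hp2
    · exact h
  have hn0 : 0 < n := Nat.pos_of_ne_zero (NeZero.ne n)
  have hpn : p = 2 * n + 1 := by omega
  have hdiv : p / 2 = n := by omega
  -- the squares
  set x : Fin n → ZMod p := fun j => ((j : ℕ) + 1 : ZMod p) ^ 2 with hx
  have hne : ∀ j : Fin n, ((j : ℕ) + 1 : ZMod p) ≠ 0 := by
    intro j h
    have h1 : (((j : ℕ) + 1 : ℕ) : ZMod p) = 0 := by push_cast; exact h
    rw [ZMod.natCast_eq_zero_iff] at h1
    have := Nat.le_of_dvd (by omega) h1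
    have := j.2
    omega
  have hx1 : ∀ j, x j ^ n = 1 := by
    intro j
    rw [hx]
    simp only
    rw [← pow_mul]
    have : 2 * n = p - 1 := by omega
    rw [this]
    exact ZMod.pow_card_sub_one_eq_one (hne j)
  have hinj : Function.Injective x := by
    intro j k hjk
    rw [hx] at hjk
    simp only at hjk
    rcases sq_eq_sq_iff_eq_or_eq_neg.1 hjk with h | h
    · have h1 : (((j : ℕ) + 1 : ℕ) : ZMod p) = (((k : ℕ) + 1 : ℕ) : ZMod p) := by push_cast; exact h
      rw [ZMod.natCast_eq_natCast_iff] at h1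
      have h2 := Nat.ModEq.eq_of_lt_of_lt h1 (by omega) (by omega)
      ext
      omega
    · have h1 : (((j : ℕ) + 1 + ((k : ℕ) + 1) : ℕ) : ZMod p) = 0 := by
        push_cast
        rw [h]; ring
      rw [ZMod.natCast_eq_zero_iff] at h1
      have := Nat.le_of_dvd (by omega) h1
      omega
  -- the matrix modulo `p`
  have hmat : ((D m p : ℤ) : ZMod p) = Matrix.det (Matrix.of fun j k : Fin n => (x j - x k) ^ (m + n)) := by
    unfold D
    rw [show ((Matrix.det (Matrix.of fun j k : Fin ((p - 1) / 2) =>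
      (((j : ℤ) + 1) ^ 2 - ((k : ℤ) + 1) ^ 2) ^ m * jacobiSym (((j : ℤ) + 1) ^ 2 - ((k : ℤ) + 1) ^ 2) p) : ℤ) :
        ZMod p) = (Int.castRingHom (ZMod p)) _ from rfl, RingHom.map_det]
    congr 1
    ext j k
    simp only [RingHom.mapMatrix_apply, Matrix.map_apply, Matrix.of_apply, map_mul, map_pow, map_sub,
      map_add, map_one]
    rw [pow_add]
    congr 1
    · simp [hx]
    · rw [← jacobiSym.legendreSym.to_jacobiSym]
      simp only [eq_intCast]
      rw [legendreSym.eq_pow, hdiv]
      congr 1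
      simp [hx]
  have hdec : (Matrix.of fun j k : Fin n => (x j - x k) ^ (m + n)) =
      Matrix.vandermonde x * Matrix.diagonal (c m n p) *
        ((Matrix.vandermonde x).submatrix id (Equiv.subLeft (Fin.ofNat n m)))ᵀ := by
    ext j k
    rw [Matrix.of_apply, entry m n p (x j) (x k) (hx1 j) (hx1 k), Matrix.mul_apply]
    apply sum_congr rfl
    intro a _
    rw [Matrix.mul_diagonal, Matrix.transpose_apply, Matrix.submatrix_apply, Matrix.vandermonde_apply,
      Matrix.vandermonde_apply]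
    simp only [id, Equiv.subLeft_apply]
    ring
  have hV : (Matrix.vandermonde x).det ≠ 0 := Matrix.det_vandermonde_ne_zero_iff.2 hinj
  have h1 : (p : ℤ) ∣ D m p ↔ ((D m p : ℤ) : ZMod p) = 0 := (ZMod.intCast_zmod_eq_zero_iff_dvd _ _).symm
  rw [h1, hmat, hdec, Matrix.det_mul, Matrix.det_mul, Matrix.det_transpose, Matrix.det_permute',
    Matrix.det_diagonal]
  have hsign : (((Equiv.Perm.sign (Equiv.subLeft (Fin.ofNat n m)) : ℤˣ) : ℤ) : ZMod p) ≠ 0 := by
    rcases Int.units_eq_one_or (Equiv.Perm.sign (Equiv.subLeft (Fin.ofNat n m))) with h | h <;> rw [h] <;> simp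
  constructor
  · intro h
    rcases mul_eq_zero.1 h with h | h
    · rcases mul_eq_zero.1 h with h | h
      · exact absurd h hV
      · obtain ⟨a, _, ha⟩ := prod_eq_zero_iff.1 h
        exact ⟨a, ha⟩
    · rcases mul_eq_zero.1 h with h | h
      · exact absurd h hsign
      · exact absurd h hV
  · rintro ⟨a, ha⟩
    rw [prod_eq_zero (mem_univ a) ha]
    simp

lemma ofNat_eq_iff {n : ℕ} [NeZero n] (i : ℕ) (a : Fin n) : Fin.ofNat n i = a ↔ i % n = a := by
  rw [Fin.ext_iff]
  rfl

/-- the coefficient for `a ≤ m < n` -/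
lemma c_low {m n p : ℕ} [NeZero n] (hmn : m < n) (a : Fin n) (ha : (a : ℕ) ≤ m) :
    c m n p a = (-1) ^ (m + n - a) * ((m + n).choose a : ZMod p) +
      (-1) ^ (m - a) * ((m + n).choose (m - a) : ZMod p) := by
  unfold c
  have hs : (range (m + n + 1)).filter (fun i => Fin.ofNat n i = a) = {(a : ℕ), (a : ℕ) + n} := by
    ext i
    rw [mem_filter, mem_range, ofNat_eq_iff, mem_insert, mem_singleton]
    have h1 := Nat.mod_add_div i n
    have h2 := a.2
    constructor
    · rintro ⟨h3, h4⟩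
      rw [h4] at h1
      have h5 : i / n < 2 := by
        by_contra hc
        push Not at hc
        have : n * 2 ≤ n * (i / n) := Nat.mul_le_mul_left _ hc
        omega
      clear h4
      generalize i / n = t at h1 h5
      have h6 : t = 0 ∨ t = 1 := by omega
      rcases h6 with rfl | rfl <;> omega
    · rintro (rfl | rfl)
      · exact ⟨by omega, Nat.mod_eq_of_lt h2⟩
      · refine ⟨by omega, ?_⟩
        rw [Nat.add_mod_right]
        exact Nat.mod_eq_of_lt h2
  have hn : 0 < n := Nat.pos_of_ne_zero (NeZero.ne n)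
  rw [hs, sum_pair (by omega)]
  congr 2
  · congr 1; omega
  · rw [← Nat.choose_symm (show (a : ℕ) + n ≤ m + n by omega)]
    congr 2
    omega

/-- the coefficient for `m < a < n` -/
lemma c_high {m n p : ℕ} [NeZero n] (a : Fin n) (ha : m < (a : ℕ)) :
    c m n p a = (-1) ^ (m + n - a) * ((m + n).choose a : ZMod p) := by
  unfold c
  have hs : (range (m + n + 1)).filter (fun i => Fin.ofNat n i = a) = {(a : ℕ)} := by
    ext i
    rw [mem_filter, mem_range, ofNat_eq_iff, mem_singleton]
    have h1 := Nat.mod_add_div i n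
    have h2 := a.2
    constructor
    · rintro ⟨h3, h4⟩
      rw [h4] at h1
      have h5 : i / n < 1 := by
        by_contra hc
        push Not at hc
        have : n * 1 ≤ n * (i / n) := Nat.mul_le_mul_left _ hc
        omega
      clear h4
      generalize i / n = t at h1 h5
      have h6 : t = 0 := by omega
      subst h6
      omega
    · rintro rfl
      exact ⟨by omega, Nat.mod_eq_of_lt h2⟩
  rw [hs, sum_singleton]

/-- the fixed numbers one of which is divisible by `p` -/
def K (m a : ℕ) : ℕ :=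
  2 ^ (m - 2 * a) * ∏ j ∈ Ico a (m - a), (j + 1) + ∏ j ∈ Ico a (m - a), (2 * m - 1 - 2 * j)

lemma K_pos (m a : ℕ) : 0 < K m a := by
  unfold K
  have h1 : 0 < ∏ j ∈ Ico a (m - a), (j + 1) := prod_pos fun j _ => by omega
  positivity

lemma choose_ne {N p : ℕ} (hp : p.Prime) (hN : N < p) {a : ℕ} (ha : a ≤ N) :
    ((N.choose a : ℕ) : ZMod p) ≠ 0 := by
  rw [Ne, ZMod.natCast_eq_zero_iff]
  intro h
  have h1 : p ∣ N.factorial := by
    rw [← Nat.choose_mul_factorial_mul_factorial ha]
    exact (h.mul_right _).mul_right _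
  rw [hp.dvd_factorial] at h1
  omega

lemma K_eq {m n p a : ℕ} (hp : p = 2 * n + 1) (ha : 2 * a ≤ m) :
    (2 ^ (m - 2 * a) * (m - a).factorial : ZMod p) * (((m + n).choose a : ZMod p) +
      ((m + n).choose (m - a) : ZMod p)) = ((m + n).descFactorial a : ZMod p) * (K m a : ZMod p) := by
  have e1 : (m - a).factorial * (m + n).choose a = (m + n).descFactorial a * ∏ j ∈ Ico a (m - a), (j + 1) := by
    rw [Nat.descFactorial_eq_factorial_mul_choose, ← prod_range_add_one_eq_factorial (m - a),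
      ← prod_range_mul_prod_Ico _ (show a ≤ m - a by omega), prod_range_add_one_eq_factorial]
    ring
  have e2 : (m - a).factorial * (m + n).choose (m - a) =
      (m + n).descFactorial a * ∏ j ∈ Ico a (m - a), (m + n - j) := by
    rw [← Nat.descFactorial_eq_factorial_mul_choose, Nat.descFactorial_eq_prod_range,
      Nat.descFactorial_eq_prod_range, prod_range_mul_prod_Ico _ (show a ≤ m - a by omega)]
  have e3 : (2 ^ (m - 2 * a) : ZMod p) * ((∏ j ∈ Ico a (m - a), (m + n - j) : ℕ) : ZMod p) =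
      ((∏ j ∈ Ico a (m - a), (2 * m - 1 - 2 * j) : ℕ) : ZMod p) := by
    have e4 : (2 ^ (m - 2 * a) : ZMod p) = ∏ _j ∈ Ico a (m - a), (2 : ZMod p) := by
      rw [prod_const, Nat.card_Ico]
      congr 1
      omega
    rw [e4]
    push_cast
    rw [← prod_mul_distrib]
    apply prod_congr rfl
    intro j hj
    rw [mem_Ico] at hj
    have h0 : ((2 * n + 1 : ℕ) : ZMod p) = 0 := by rw [← hp]; exact ZMod.natCast_self p
    have h1 : ((2 * (m + n - j) : ℕ) : ZMod p) = ((2 * m - 1 - 2 * j + (2 * n + 1) : ℕ) : ZMod p) := by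
      congr 1
      omega
    rw [Nat.cast_add, h0, add_zero] at h1
    rw [← h1]
    push_cast
    ring
  have f1 := congrArg (fun t : ℕ => (t : ZMod p)) e1
  have f2 := congrArg (fun t : ℕ => (t : ZMod p)) e2
  simp only [Nat.cast_mul] at f1 f2
  unfold K
  rw [Nat.cast_add, Nat.cast_mul, ← e3]
  push_cast at f1 f2 ⊢
  linear_combination (2 ^ (m - 2 * a)) * f1 + (2 ^ (m - 2 * a)) * f2

/-- for `m < (p - 1) / 2` the prime `p` divides one of the fixed numbers `K m a` -/
theorem dvd_K {m p : ℕ} (hm : Odd m) (hp : p.Prime) (hp4 : p % 4 = 1) (hmp : m < (p - 1) / 2)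
    (h : (p : ℤ) ∣ D m p) : ∃ a, 2 * a < m ∧ p ∣ K m a := by
  have hne : NeZero ((p - 1) / 2) := ⟨by omega⟩
  rw [dvd_iff m p hp (by rintro rfl; omega)] at h
  obtain ⟨a, ha⟩ := h
  have : Fact p.Prime := ⟨hp⟩
  have h2 := a.2
  obtain ⟨t, ht⟩ := hm
  rcases lt_or_ge m (a : ℕ) with h1 | h1
  · exfalso
    rw [c_high a h1] at ha
    rcases mul_eq_zero.1 ha with h3 | h3
    · exact absurd h3 (pow_ne_zero _ (neg_ne_zero.2 one_ne_zero))
    · exact choose_ne hp (by omega) (by omega) h3
  · rw [c_low hmp a h1] at ha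
    have e1 : ((-1) ^ (m + (p - 1) / 2 - a) : ZMod p) = (-1) ^ (m - a) := by
      have : m + (p - 1) / 2 - a = (m - a) + 2 * ((p - 1) / 4) := by omega
      rw [this, pow_add, pow_mul]
      simp
    rw [e1, ← mul_add] at ha
    rcases mul_eq_zero.1 ha with h3 | h3
    · exact absurd h3 (pow_ne_zero _ (neg_ne_zero.2 one_ne_zero))
    · -- wlog `2 a < m`
      have key : ∀ b : ℕ, 2 * b < m → ((m + (p - 1) / 2).choose b : ZMod p) +
          ((m + (p - 1) / 2).choose (m - b) : ZMod p) = 0 → p ∣ K m b := by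
        intro b hb h4
        have h5 := K_eq (m := m) (n := (p - 1) / 2) (p := p) (a := b) (by omega) (by omega)
        rw [h4, mul_zero] at h5
        rcases mul_eq_zero.1 h5.symm with h6 | h6
        · exfalso
          rw [ZMod.natCast_eq_zero_iff, Nat.descFactorial_eq_factorial_mul_choose] at h6
          have h7 : p ∣ (m + (p - 1) / 2).factorial := by
            rw [← Nat.choose_mul_factorial_mul_factorial (show b ≤ m + (p - 1) / 2 by omega)]
            rw [mul_comm] at h6
            exact h6.mul_right _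
          rw [hp.dvd_factorial] at h7
          omega
        · rwa [ZMod.natCast_eq_zero_iff] at h6
      rcases lt_or_ge (2 * (a : ℕ)) m with h4 | h4
      · exact ⟨a, h4, key a h4 h3⟩
      · refine ⟨m - a, by omega, key _ (by omega) ?_⟩
        rw [show m - (m - (a : ℕ)) = a by omega, add_comm]
        exact h3

/-- conversely such a prime divides the determinant -/
theorem dvd_of_K {m p a : ℕ} (hp : p.Prime) (hp4 : p % 4 = 1) (hmp : m < (p - 1) / 2)
    (ha : 2 * a ≤ m) (hK : p ∣ K m a) : (p : ℤ) ∣ D m p := by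
  have hne : NeZero ((p - 1) / 2) := ⟨by omega⟩
  have : Fact p.Prime := ⟨hp⟩
  rw [dvd_iff m p hp (by rintro rfl; omega)]
  refine ⟨⟨a, by omega⟩, ?_⟩
  rw [c_low hmp _ (by simp only; omega)]
  have e1 : ((-1) ^ (m + (p - 1) / 2 - a) : ZMod p) = (-1) ^ (m - a) := by
    have : m + (p - 1) / 2 - a = (m - a) + 2 * ((p - 1) / 4) := by omega
    rw [this, pow_add, pow_mul]
    simp
  simp only
  rw [e1, ← mul_add]
  have h5 := K_eq (m := m) (n := (p - 1) / 2) (p := p) (a := a) (by omega) ha
  rw [(ZMod.natCast_eq_zero_iff (K m a) p).2 hK, mul_zero] at h5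
  rcases mul_eq_zero.1 h5 with h6 | h6
  · exfalso
    rcases mul_eq_zero.1 h6 with h7 | h7
    · have h8 : ((2 : ℕ) : ZMod p) = 0 := by
        have := eq_zero_of_pow_eq_zero h7
        exact_mod_cast this
      rw [ZMod.natCast_eq_zero_iff] at h8
      have := Nat.le_of_dvd (by norm_num) h8
      omega
    · rw [ZMod.natCast_eq_zero_iff, hp.dvd_factorial] at h7
      omega
  · rw [h6, mul_zero]

lemma mem_of_dvd {l : List ℕ} (hl : ∀ q ∈ l, q.Prime) {p : ℕ} (hp : p.Prime) (h : p ∣ l.prod) :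
    p ∈ l := by
  obtain ⟨q, hq, hpq⟩ := (Nat.prime_iff.1 hp).dvd_prod_iff.1 h
  rwa [(Nat.prime_dvd_prime_iff_eq hp (hl q hq)).1 hpq]

end Pool.Agent.X40.LD
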