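import Pool.Agent.X40.Res

/-!
# The maximal height of the divisors of `X ^ (p q ^ b) - 1`

For primes `p < q` and `b ≥ 1` it is `p` times the maximal height of a product of cyclotomic
polynomials `Φ_d`, `d ∣ p q ^ (b - 1)`, `q ∣ d`.
-/

set_option autoImplicit false

namespace Pool.Agent.X40

open Polynomial Finset

lemma H_one : H (1 : ℤ[X]) ≤ 1 := by
  apply H_le
  intro i
  rw [coeff_one]
  split_ifs <;> simp

lemma H_expand_le {q : ℕ} (hq : 0 < q) (P : ℤ[X]) : H (expand ℤ q P) ≤ H P := by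
  apply H_le_cf
  intro m
  rw [cf_expand hq]
  split_ifs
  · exact abs_cf_le _ _
  · simp

lemma H_sub_mul_le (k : ℕ) (F : ℤ[X]) : H ((X ^ k - 1) * F) ≤ 2 * H F := by
  apply H_le_cf
  intro m
  rw [sub_mul, one_mul, cf_sub, cf_X_pow_mul]
  refine (abs_sub _ _).trans ?_
  have h1 := abs_cf_le F (m - k)
  have h2 := abs_cf_le F m
  push_cast
  linarith

lemma H_sub_expand_le {q : ℕ} (hq : 2 ≤ q) (R : ℤ[X]) : H ((X - 1) * expand ℤ q R) ≤ H R := by
  apply H_le_cf
  intro m
  have e : (X - 1 : ℤ[X]) = X ^ 1 - 1 := by ring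
  rw [e, sub_mul, one_mul, cf_sub, cf_X_pow_mul, cf_expand (by omega), cf_expand (by omega)]
  by_cases h1 : (q : ℤ) ∣ m - (1 : ℕ)
  · have h2 : ¬ (q : ℤ) ∣ m := by
      intro h3
      have h4 := dvd_sub h3 h1
      rw [show m - (m - ((1 : ℕ) : ℤ)) = 1 by push_cast; ring] at h4
      have h5 := Int.le_of_dvd (by norm_num) h4
      omega
    rw [if_pos h1, if_neg h2, sub_zero]
    exact abs_cf_le _ _
  · rw [if_neg h1, zero_sub, abs_neg]
    split_ifs
    · exact abs_cf_le _ _
    · simp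

/-- the coefficients of `Φ_q P (X ^ q)` -/
lemma cf_block {q : ℕ} (hq : q.Prime) (P : ℤ[X]) (m : ℤ) :
    cf (cyclotomic q ℤ * expand ℤ q P) m = cf P (m / q) := by
  have hq0 := hq.pos
  have : Fact q.Prime := ⟨hq⟩
  have hq' : (0 : ℤ) < q := by exact_mod_cast hq0
  set F := cyclotomic q ℤ * expand ℤ q P with hF
  have h1 : X ^ 1 * F - F = X ^ q * expand ℤ q P - expand ℤ q P := by
    have h2 := cyclotomic_prime_mul_X_sub_one ℤ q
    rw [hF, pow_one]
    linear_combination (expand ℤ q P) * h2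
  have h3 : ∀ m : ℤ, cf F (m - (1 : ℕ)) - cf F m = cf (expand ℤ q P) (m - q) -
      cf (expand ℤ q P) m := by
    intro m
    rw [← cf_X_pow_mul, ← cf_sub, h1, cf_sub, cf_X_pow_mul]
  have h4 : ∀ m : ℤ, cf P ((m - (1 : ℕ)) / q) - cf P (m / q) = cf (expand ℤ q P) (m - q) -
      cf (expand ℤ q P) m := by
    intro m
    rw [cf_expand hq0, cf_expand hq0]
    by_cases h : (q : ℤ) ∣ m
    · obtain ⟨c, rfl⟩ := h
      have e1 : ((q : ℤ) * c - (1 : ℕ)) / q = c - 1 := by
        rw [Int.ediv_eq_iff_of_pos hq']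
        constructor
        · push_cast; linarith
        · push_cast; linarith
      have e2 : (q : ℤ) * c / q = c := Int.mul_ediv_cancel_left _ hq'.ne'
      have e3 : ((q : ℤ) * c - q) / q = c - 1 := by
        rw [show (q : ℤ) * c - q = q * (c - 1) by ring]
        exact Int.mul_ediv_cancel_left _ hq'.ne'
      rw [e1, e2, if_pos ⟨c - 1, by ring⟩, if_pos ⟨c, rfl⟩, e3]
    · have e1 : (m - (1 : ℕ)) / q = m / q := by
        have h5 := Int.emod_add_mul_ediv m q
        have h6 := Int.emod_nonneg m hq'.ne'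
        have h7 := Int.emod_lt_of_pos m hq'
        have h8 : m % q ≠ 0 := fun h' => h (Int.dvd_of_emod_eq_zero h')
        have h9 : 1 ≤ m % q := by omega
        rw [Int.ediv_eq_iff_of_pos hq']
        constructor
        · push_cast; linarith
        · push_cast; linarith
      have e5 : ¬ (q : ℤ) ∣ m - q := by
        intro h6
        apply h
        have := dvd_add h6 (dvd_refl (q : ℤ))
        rwa [sub_add_cancel] at this
      rw [e1, if_neg h, if_neg e5]
      ring
  have h5 := uniq (k := 1) one_pos (fun m => cf F m - cf P (m / q)) (by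
    intro m hm
    rw [cf_neg _ hm, cf_neg _ (Int.ediv_neg_of_neg_of_pos hm hq')]
    ring) (by
    intro m
    linarith [h3 m, h4 m]) m
  linarith

lemma H_block_le {q : ℕ} (hq : q.Prime) (P : ℤ[X]) : H (cyclotomic q ℤ * expand ℤ q P) ≤ H P := by
  apply H_le_cf
  intro m
  rw [cf_block hq]
  exact abs_cf_le _ _

lemma cf_sum {ι : Type*} (s : Finset ι) (F : ι → ℤ[X]) (m : ℤ) :
    cf (∑ i ∈ s, F i) m = ∑ i ∈ s, cf (F i) m := by
  unfold cf
  split_ifs
  · exact finsetSum_coeff _ _ _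
  · simp

lemma cf_Phi {p : ℕ} (hp : p.Prime) (F : ℤ[X]) (m : ℤ) :
    cf (cyclotomic p ℤ * F) m = ∑ i ∈ range p, cf F (m - i) := by
  have : Fact p.Prime := ⟨hp⟩
  rw [cyclotomic_prime, sum_mul, cf_sum]
  exact sum_congr rfl fun i _ => cf_X_pow_mul _ _ _

lemma H_Phi_le {p : ℕ} (hp : p.Prime) (F : ℤ[X]) : H (cyclotomic p ℤ * F) ≤ p * H F := by
  apply H_le_cf
  intro m
  rw [cf_Phi hp]
  refine (abs_sum_le_sum_abs _ _).trans ?_
  have h : ∑ i ∈ range p, |cf F (m - (i : ℤ))| ≤ ∑ _i ∈ range p, (H F : ℤ) :=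
    sum_le_sum fun i _ => abs_cf_le F (m - (i : ℤ))
  refine h.trans ?_
  rw [sum_const, card_range]
  push_cast
  simp

lemma key_arith {p q a a' b' x y : ℤ} (hp2 : 2 ≤ p) (hq' : 0 < q) (hcop : IsCoprime p q)
    (h1 : 0 ≤ a) (h2 : a < q) (h3 : 0 ≤ a') (h4 : a' < q) (h5 : 0 ≤ b') (h6 : b' < q)
    (k1 : p * (a - a') + q * x = 1) (k2 : p * (a' - b') + q * y = 1) : |x| + |y| ≤ p := by
  have hp' : 0 < p := by linarith
  have k3 : q * (x - y) = p * ((a' - b') - (a - a')) := by linarith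
  have k4 : p ∣ x - y := hcop.dvd_of_dvd_mul_left ⟨_, k3⟩
  obtain ⟨t, ht⟩ := k4
  have k5 : (a' - b') - (a - a') = q * t := by
    rw [ht] at k3
    have : p * ((a' - b') - (a - a')) = p * (q * t) := by linarith
    exact mul_left_cancel₀ hp'.ne' this
  have k6 : t ≤ 1 := by
    by_contra hc
    push Not at hc
    have : q * 2 ≤ q * t := mul_le_mul_of_nonneg_left (by omega) hq'.le
    linarith
  have k7 : -1 ≤ t := by
    by_contra hc
    push Not at hc
    have : q * t ≤ q * (-2) := mul_le_mul_of_nonneg_left (by omega) hq'.le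
    linarith
  have jump : ∀ c c' z : ℤ, 0 ≤ c → c < q → 0 ≤ c' → c' < q → p * (c - c') + q * z = 1 →
      -(p - 1) ≤ z ∧ z ≤ p - 1 := by
    intro c c' z g1 g2 g3 g4 g5
    constructor
    · by_contra hc
      push Not at hc
      have h7 : q * z ≤ q * (-p) := mul_le_mul_of_nonneg_left (by omega) hq'.le
      have h8 : p * (c - c') ≤ p * (q - 1) := mul_le_mul_of_nonneg_left (by linarith) hp'.le
      nlinarith
    · by_contra hc
      push Not at hc
      have h7 : q * p ≤ q * z := mul_le_mul_of_nonneg_left (by omega) hq'.le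
      have h8 : p * (-(q - 1)) ≤ p * (c - c') := mul_le_mul_of_nonneg_left (by linarith) hp'.le
      nlinarith
  obtain ⟨k8, k8'⟩ := jump a a' x h1 h2 h3 h4 k1
  obtain ⟨k9, k9'⟩ := jump a' b' y h3 h4 h5 h6 k2
  have k10 : t = -1 ∨ t = 0 ∨ t = 1 := by omega
  rcases k10 with rfl | rfl | rfl
  · have e1 : x ≤ 0 := by linarith
    have e2 : 0 ≤ y := by linarith
    rw [abs_of_nonpos e1, abs_of_nonneg e2]
    linarith
  · have k11 : x = y := by linarith
    have k12 : a - b' = 2 * (a' - b') := by linarith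
    subst k11
    have k13 : p * (a - b') + q * (2 * x) = 2 := by
      rw [k12]
      linarith
    rcases abs_cases x with ⟨e3, _⟩ | ⟨e3, _⟩
    · rw [e3]
      by_contra hc
      push Not at hc
      have k15 : q * (p + 1) ≤ q * (2 * x) := mul_le_mul_of_nonneg_left (by omega) hq'.le
      have k16 : p * (-(q - 1)) ≤ p * (a - b') := mul_le_mul_of_nonneg_left (by linarith) hp'.le
      nlinarith
    · rw [e3]
      by_contra hc
      push Not at hc
      have k15 : q * (2 * x) ≤ q * (-(p + 1)) := mul_le_mul_of_nonneg_left (by omega) hq'.le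
      have k16 : p * (a - b') ≤ p * (q - 1) := mul_le_mul_of_nonneg_left (by linarith) hp'.le
      nlinarith
  · have e1 : 0 ≤ x := by linarith
    have e2 : y ≤ 0 := by linarith
    rw [abs_of_nonneg e1, abs_of_nonpos e2]
    linarith

section

variable {p q : ℕ} (hp : p.Prime) (hq : q.Prime) (hpq : p < q)

include hp hq hpq

lemma H_V_le (P : ℤ[X]) : H (expand ℤ p (cyclotomic q ℤ) * expand ℤ q P) ≤ H P := by
  obtain ⟨u, hu⟩ := exists_inv hp hq hpq.ne
  apply H_le_cf
  intro m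
  rw [cf_V hp hq hu]
  exact abs_cf_le _ _

/-- the absolute value of the jumps of `L` is at most `p - 1` -/
lemma L_jump_le {u : ℤ} (hu : (q : ℤ) ∣ p * u - 1) (m : ℤ) :
    |L p q u m - L p q u (m - 1)| ≤ (p : ℤ) - 1 := by
  obtain ⟨a, a', h1, h2, h3, h4, h5, -, -⟩ := L_jump (p := p) hq.pos hu m
  set d := L p q u m - L p q u (m - 1) with hd
  have hq' : (0 : ℤ) < q := by exact_mod_cast hq.pos
  have hp' : (0 : ℤ) < p := by exact_mod_cast hp.pos
  have hp2 : (2 : ℤ) ≤ p := by exact_mod_cast hp.two_le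
  rw [abs_le]
  constructor
  · by_contra hc
    push Not at hc
    have h6 : d ≤ -p := by omega
    have h7 : (q : ℤ) * d ≤ q * (-p) := by nlinarith
    have h8 : (p : ℤ) * (a - a') ≤ p * (q - 1) := by nlinarith
    nlinarith
  · by_contra hc
    push Not at hc
    have h6 : (p : ℤ) ≤ d := by omega
    have h7 : (q : ℤ) * p ≤ q * d := by nlinarith
    have h8 : -((p : ℤ) * (q - 1)) ≤ (p : ℤ) * (a - a') := by nlinarith
    nlinarith

lemma H_W_le (P : ℤ[X]) : H (cyclotomic (p * q) ℤ * expand ℤ q P) ≤ (p - 1) * H P := by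
  obtain ⟨u, hu⟩ := exists_inv hp hq hpq.ne
  apply H_le_cf
  intro m
  rw [cf_W hp hq hpq.ne hu]
  refine (C_diff_le _ _ _).trans ?_
  have h1 := L_jump_le hp hq hpq hu m
  have h2 : (0 : ℤ) ≤ H P := Int.natCast_nonneg _
  have h3 : (((p - 1 : ℕ) : ℤ)) = (p : ℤ) - 1 := by
    have := hp.one_le
    push_cast [Nat.cast_sub this]
    ring
  push_cast
  rw [h3]
  exact mul_le_mul_of_nonneg_right h1 h2

lemma H_W1_le (P : ℤ[X]) : H ((X - 1) * (cyclotomic (p * q) ℤ * expand ℤ q P)) ≤ p * H P := by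
  obtain ⟨u, hu⟩ := exists_inv hp hq hpq.ne
  apply H_le_cf
  intro m
  have e : (X - 1 : ℤ[X]) = X ^ 1 - 1 := by ring
  rw [e, sub_mul, one_mul, cf_sub, cf_X_pow_mul, cf_W hp hq hpq.ne hu, cf_W hp hq hpq.ne hu]
  obtain ⟨a, a', h1, h2, h3, h4, h5, h5a, h5b⟩ := L_jump (p := p) hq.pos hu m
  obtain ⟨b, b', g1, g2, g3, g4, g5, g5a, g5b⟩ := L_jump (p := p) hq.pos hu (m - 1)
  have e1 : m - ((1 : ℕ) : ℤ) = m - 1 := by push_cast; ring
  rw [e1]
  have hq' : (0 : ℤ) < q := by exact_mod_cast hq.pos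
  have hp' : (0 : ℤ) < p := by exact_mod_cast hp.pos
  have hp2 : (2 : ℤ) ≤ p := by exact_mod_cast hp.two_le
  have hab : a' = b := by
    have h6 : (p : ℤ) * a' = p * b := by linarith
    exact mul_left_cancel₀ hp'.ne' h6
  subst hab
  have hcop : IsCoprime (p : ℤ) (q : ℤ) := by
    rw [Nat.isCoprime_iff_coprime]
    exact (Nat.coprime_primes hp hq).2 hpq.ne
  have key := key_arith hp2 hq' hcop h1 h2 h3 h4 g3 g4 h5 g5
  generalize L p q u m = l0 at key ⊢
  generalize L p q u (m - 1 - 1) = l2 at key ⊢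
  generalize L p q u (m - 1) = l1 at key ⊢
  rw [abs_sub_comm l0 l1] at key
  have e2 : C P l1 - C P l2 - (C P l0 - C P l1) = (C P l1 - C P l0) + (C P l1 - C P l2) := by ring
  rw [e2]
  refine (abs_add_le _ _).trans ?_
  have e3 := C_diff_le P l1 l0
  have e4 := C_diff_le P l1 l2
  have e5 : (0 : ℤ) ≤ H P := Int.natCast_nonneg _
  push_cast
  nlinarith

/-- the height of `Φ_p Φ_q P (X ^ q)` is at least `p` times the height of `P` -/
lemma le_H_plateau (P : ℤ[X]) (hP : P ≠ 0) :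
    p * H P ≤ H (cyclotomic p ℤ * (cyclotomic q ℤ * expand ℤ q P)) := by
  obtain ⟨j, hj⟩ := exists_H P hP
  have hq' : (0 : ℤ) < q := by exact_mod_cast hq.pos
  have h1 : cf (cyclotomic p ℤ * (cyclotomic q ℤ * expand ℤ q P)) (q * j + (p - 1)) =
      p * P.coeff j := by
    rw [cf_Phi hp]
    rw [sum_congr rfl (g := fun _ => P.coeff j)]
    · simp
    · intro i hi
      rw [mem_range] at hi
      rw [cf_block hq, ← cf_nat]
      congr 1
      rw [Int.ediv_eq_iff_of_pos hq']
      constructor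
      · linarith
      · have : (p : ℤ) < q := by exact_mod_cast hpq
        have : (0 : ℤ) ≤ i := by positivity
        linarith
  have h2 := abs_cf_le (cyclotomic p ℤ * (cyclotomic q ℤ * expand ℤ q P)) (q * j + (p - 1))
  rw [h1, abs_mul, Nat.abs_cast, Int.abs_eq_natAbs, hj] at h2
  exact_mod_cast h2

end

end Pool.Agent.X40
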