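import Pool.Agent.X40.PQB

/-!
# A lower bound for the maximal height of the divisors of `X ^ (p q ^ b) - 1`, `b ≥ 3`
-/

set_option autoImplicit false

namespace Pool.Agent.X40

open Polynomial Finset

lemma C_cyc {q : ℕ} (hq : q.Prime) {l : ℤ} (h1 : -1 ≤ l) (h2 : l ≤ q - 1) :
    C (cyclotomic q ℤ) l = l + 1 := by
  have : Fact q.Prime := ⟨hq⟩
  unfold C
  have h3 : ∀ j ∈ range (l + 1).toNat, (cyclotomic q ℤ).coeff j = 1 := by
    intro j hj
    rw [mem_range] at hj
    rw [cyclotomic_prime, finsetSum_coeff]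
    have hj2 : j < q := by omega
    rw [Finset.sum_eq_single_of_mem j (mem_range.2 hj2)]
    · simp
    · intro i _ hi
      rw [coeff_X_pow, if_neg (Ne.symm hi)]
  rw [sum_congr rfl h3, sum_const, card_range]
  simp only [nsmul_eq_mul, mul_one]
  omega

/-- `H (Φ_{pq} Φ_{q²}) ≥ p / 2` -/
lemma le_H_two {p q : ℕ} (hp : p.Prime) (hq : q.Prime) (hpq : p < q) :
    p ≤ 2 * H (cyclotomic (p * q) ℤ * expand ℤ q (cyclotomic q ℤ)) := by
  obtain ⟨u, hu⟩ := exists_inv hp hq hpq.ne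
  have hq' : (0 : ℤ) < q := by exact_mod_cast hq.pos
  have hp2 : (2 : ℤ) ≤ p := by exact_mod_cast hp.two_le
  have hpq' : (p : ℤ) + 1 ≤ q := by exact_mod_cast hpq
  set m : ℤ := q * (p - 1) with hm
  have hL : L p q u m = p - 1 := L_uniq hq.pos hu (a := 0) le_rfl hq' (by rw [hm]; ring)
  obtain ⟨a, a', h1, h2, h3, h4, h5, h6, h7⟩ := L_jump (p := p) hq.pos hu m
  obtain ⟨b, b', g1, g2, g3, g4, g5, g6, g7⟩ := L_jump (p := p) hq.pos hu (m + 1)
  have e0 : m + 1 - 1 = m := by ring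
  rw [e0] at g5 g7
  rw [hL] at h5 h6 g5 g7
  have hp' : (0 : ℤ) < p := by linarith
  have ha : a = 0 := by
    have : (p : ℤ) * a = p * 0 := by rw [hm] at h6; linarith
    exact mul_left_cancel₀ hp'.ne' this
  have hb' : b' = 0 := by
    have : (p : ℤ) * b' = p * 0 := by rw [hm] at g7; linarith
    exact mul_left_cancel₀ hp'.ne' this
  subst ha hb'
  set l1 := L p q u (m - 1) with hl1
  set l2 := L p q u (m + 1) with hl2
  -- `a' + b = q`
  have hcop : IsCoprime (p : ℤ) (q : ℤ) := by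
    rw [Nat.isCoprime_iff_coprime]
    exact (Nat.coprime_primes hp hq).2 hpq.ne
  have k1 : (p : ℤ) * (a' + b) = q * ((p - 1 - l1) - (l2 - (p - 1))) := by linarith
  obtain ⟨t, ht⟩ : (q : ℤ) ∣ a' + b := hcop.symm.dvd_of_dvd_mul_left ⟨_, k1⟩
  have ha'0 : a' ≠ 0 := by
    rintro rfl
    have : (q : ℤ) ∣ 1 := ⟨p - 1 - l1, by linarith⟩
    have := Int.le_of_dvd (by norm_num) this
    linarith
  have ht1 : t = 1 := by
    have k2 : 0 < (q : ℤ) * t := by omega
    have k3 : (q : ℤ) * t < q * 2 := by linarith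
    have k4 : 0 < t := by
      by_contra hc
      push Not at hc
      have : (q : ℤ) * t ≤ q * 0 := mul_le_mul_of_nonneg_left hc hq'.le
      linarith
    have k5 : t < 2 := lt_of_mul_lt_mul_left k3 hq'.le
    omega
  subst ht1
  have k6 : (p - 1 - l1) + (p - 1 - l2) = (p : ℤ) := by
    have : (q : ℤ) * ((p - 1 - l1) + (p - 1 - l2)) = q * p := by
      rw [ht] at k1
      linarith
    exact mul_left_cancel₀ hq'.ne' this
  -- ranges
  have r1 : 0 ≤ l1 := by
    by_contra hc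
    push Not at hc
    have : (q : ℤ) * l1 ≤ q * (-1) := mul_le_mul_of_nonneg_left (by omega) hq'.le
    have : (p : ℤ) * a' ≤ p * (q - 1) := mul_le_mul_of_nonneg_left (by linarith) hp'.le
    rw [hm] at h7
    linarith
  have r2 : l1 ≤ p - 1 := by
    by_contra hc
    push Not at hc
    have : (q : ℤ) * p ≤ q * l1 := mul_le_mul_of_nonneg_left (by omega) hq'.le
    have : 0 ≤ (p : ℤ) * a' := by positivity
    rw [hm] at h7
    linarith
  have r3 : 0 ≤ l2 := by
    by_contra hc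
    push Not at hc
    have : (q : ℤ) * l2 ≤ q * (-1) := mul_le_mul_of_nonneg_left (by omega) hq'.le
    have : (p : ℤ) * b ≤ p * (q - 1) := mul_le_mul_of_nonneg_left (by linarith) hp'.le
    rw [hm] at g6
    linarith
  have r4 : l2 ≤ p - 1 := by
    by_contra hc
    push Not at hc
    have : (q : ℤ) * p ≤ q * l2 := mul_le_mul_of_nonneg_left (by omega) hq'.le
    have : 0 ≤ (p : ℤ) * b := by positivity
    rw [hm] at g6
    linarith
  have c1 := cf_W hp hq hpq.ne hu (cyclotomic q ℤ) m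
  have c2 := cf_W hp hq hpq.ne hu (cyclotomic q ℤ) (m + 1)
  rw [e0] at c2
  rw [hL, ← hl1, C_cyc hq (by linarith) (by linarith), C_cyc hq (by linarith) (by linarith)] at c1
  rw [hL, ← hl2, C_cyc hq (by linarith) (by linarith), C_cyc hq (by linarith) (by linarith)] at c2
  have b1 := abs_cf_le (cyclotomic (p * q) ℤ * expand ℤ q (cyclotomic q ℤ)) m
  have b2 := abs_cf_le (cyclotomic (p * q) ℤ * expand ℤ q (cyclotomic q ℤ)) (m + 1)
  rw [c1] at b1
  rw [c2] at b2
  have b3 := (le_abs_self _).trans b1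
  have b4 := (neg_le_abs _).trans b2
  have : (p : ℤ) ≤ 2 * (H (cyclotomic (p * q) ℤ * expand ℤ q (cyclotomic q ℤ)) : ℤ) := by linarith
  exact_mod_cast this

/-- for odd primes `p < q` and `b ≥ 3` the maximal height is at least `p (p + 1) / 2` -/
theorem le_B_pqb {p q : ℕ} (hp : p.Prime) (hq : q.Prime) (hpq : p < q) (h2 : p ≠ 2) {b : ℕ} (hb : 3 ≤ b) :
    p * (p + 1) ≤ 2 * B (p * q ^ b) := by
  obtain ⟨c, rfl⟩ : ∃ c, b = (c + 2) + 1 := ⟨b - 3, by omega⟩
  rw [B_eq hp hq hpq]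
  have hT : ({p * q, q * q} : Finset ℕ) ⊆ (p * q ^ (c + 2)).divisors.filter (fun d => q ∣ d) := by
    have hp0 := hp.pos
    have hq0 := hq.pos
    intro d hd
    rw [mem_insert, mem_singleton] at hd
    rw [mem_filter, Nat.mem_divisors]
    rcases hd with rfl | rfl
    · refine ⟨⟨?_, by positivity⟩, Dvd.intro_left _ rfl⟩
      exact Nat.mul_dvd_mul_left p (dvd_pow_self q (by omega))
    · refine ⟨⟨?_, by positivity⟩, Dvd.intro_left _ rfl⟩
      rw [← pow_two]
      exact (pow_dvd_pow q (by omega)).mul_left _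
  have h1 := le_Bq hT
  have hne : p * q ≠ q * q := by
    intro h
    have := Nat.eq_of_mul_eq_mul_right hq.pos h
    omega
  rw [prod_pair hne, ← cyclotomic_expand_eq_cyclotomic hq (dvd_refl q) ℤ] at h1
  have h3 := le_H_two hp hq hpq
  have hodd : p % 2 = 1 := by
    rcases hp.eq_two_or_odd with h | h
    · exact absurd h h2
    · exact h
  have h4 : p + 1 ≤ 2 * Bq (p * q ^ (c + 2)) q := by omega
  calc p * (p + 1) ≤ p * (2 * Bq (p * q ^ (c + 2)) q) := Nat.mul_le_mul_left _ h4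
    _ = 2 * (p * Bq (p * q ^ (c + 2)) q) := by ring

end Pool.Agent.X40
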