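import Pool.Agent.X40.PQ

/-!
# The maximal height of the divisors of `X ^ (p q ^ b) - 1`: the levels
-/

set_option autoImplicit false

namespace Pool.Agent.X40

open Polynomial Finset

/-- the largest height of a product of cyclotomic polynomials `Φ_d`, `d ∣ N`, `q ∣ d` -/
noncomputable def Bq (N q : ℕ) : ℕ :=
  ((N.divisors.filter (fun d => q ∣ d)).powerset).sup (fun T => H (∏ e ∈ T, cyclotomic e ℤ))

lemma le_Bq {N q : ℕ} {T : Finset ℕ} (hT : T ⊆ N.divisors.filter (fun d => q ∣ d)) :
    H (∏ e ∈ T, cyclotomic e ℤ) ≤ Bq N q :=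
  Finset.le_sup (f := fun T : Finset ℕ => H (∏ e ∈ T, cyclotomic e ℤ)) (mem_powerset.2 hT)

section

variable {p q : ℕ} (hp : p.Prime) (hq : q.Prime) (hpq : p < q)

include hp hq hpq

/-- the decomposition of a product of cyclotomic polynomials into the lower and the upper levels -/
lemma decomp (c : ℕ) (S : Finset ℕ) (hS : S ⊆ (p * q ^ (c + 1)).divisors) :
    ∃ T ⊆ (p * q ^ c).divisors.filter (fun d => q ∣ d),
      ∏ d ∈ S, cyclotomic d ℤ = ((if 1 ∈ S then X - 1 else 1) *
        (if p ∈ S then cyclotomic p ℤ else 1) * (if q ∈ S then cyclotomic q ℤ else 1) *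
        (if p * q ∈ S then cyclotomic (p * q) ℤ else 1)) * expand ℤ q (∏ e ∈ T, cyclotomic e ℤ) := by
  classical
  have hq0 := hq.pos
  have hp0 := hp.pos
  refine ⟨(S.filter (fun d => q ^ 2 ∣ d)).image (fun d => d / q), ?_, ?_⟩
  · intro e he
    rw [mem_image] at he
    obtain ⟨d, hd, rfl⟩ := he
    rw [mem_filter] at hd
    obtain ⟨hd1, k, rfl⟩ := hd
    have h1 := Nat.dvd_of_mem_divisors (hS hd1)
    have h2 : q ^ 2 * k / q = q * k := by
      rw [show q ^ 2 * k = q * (q * k) by ring]
      exact Nat.mul_div_cancel_left _ hq0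
    rw [h2, mem_filter, Nat.mem_divisors]
    refine ⟨⟨?_, by positivity⟩, Dvd.intro _ rfl⟩
    have h3 : q * (q * k) ∣ q * (p * q ^ c) := by
      rw [show q * (q * k) = q ^ 2 * k by ring, show q * (p * q ^ c) = p * q ^ (c + 1) by ring]
      exact h1
    exact (Nat.mul_dvd_mul_iff_left hq0).1 h3
  · rw [← prod_filter_mul_prod_filter_not S (fun d => q ^ 2 ∣ d), mul_comm]
    congr 1
    · have h1 : S.filter (fun d => ¬ q ^ 2 ∣ d) = ({1, p, q, p * q} : Finset ℕ).filter (· ∈ S) := by
        ext d
        simp only [mem_filter, mem_insert, mem_singleton]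
        constructor
        · rintro ⟨h2, h3⟩
          refine ⟨?_, h2⟩
          have h4 := Nat.dvd_of_mem_divisors (hS h2)
          obtain ⟨⟨d1, hd1⟩, ⟨d2, hd2⟩, h5⟩ := Nat.dvd_mul.1 h4 |> fun ⟨a, b, ha, hb, hab⟩ =>
            (⟨⟨a, ha⟩, ⟨b, hb⟩, hab⟩ : ∃ (a : {a // a ∣ p}) (b : {b // b ∣ q ^ (c + 1)}), a.1 * b.1 = d)
          simp only at h5
          obtain ⟨j, hj, rfl⟩ := (Nat.dvd_prime_pow hq).1 hd2
          have h6 : j ≤ 1 := by
            by_contra hc
            push Not at hc
            apply h3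
            rw [← h5]
            exact (pow_dvd_pow q hc).mul_left _
          rcases (Nat.dvd_prime hp).1 hd1 with rfl | rfl <;> interval_cases j <;> simp_all
        · rintro ⟨h2, h3⟩
          refine ⟨h3, ?_⟩
          intro h4
          have h5 : d ∣ p * q := by
            rcases h2 with rfl | rfl | rfl | rfl
            · exact one_dvd _
            · exact Dvd.intro _ rfl
            · exact Dvd.intro_left _ rfl
            · exact dvd_rfl
          have h6 : q * q ∣ p * q := by
            rw [← pow_two]; exact h4.trans h5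
          have h7 : q ∣ p := (Nat.mul_dvd_mul_iff_right hq0).1 h6
          have := Nat.le_of_dvd hp0 h7
          omega
      rw [h1, prod_filter]
      have n1 : (1 : ℕ) ∉ ({p, q, p * q} : Finset ℕ) := by
        simp only [mem_insert, mem_singleton, not_or]
        have := hp.one_lt
        have := hq.one_lt
        refine ⟨by omega, by omega, ?_⟩
        intro h
        have : 1 < p * q := by nlinarith
        omega
      have n2 : p ∉ ({q, p * q} : Finset ℕ) := by
        simp only [mem_insert, mem_singleton, not_or]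
        have := hq.one_lt
        refine ⟨by omega, ?_⟩
        intro h
        have : p * 1 < p * q := by nlinarith
        omega
      have n3 : q ∉ ({p * q} : Finset ℕ) := by
        simp only [mem_singleton]
        have := hp.one_lt
        intro h
        have : 1 * q < p * q := by nlinarith
        omega
      rw [prod_insert n1, prod_insert n2, prod_insert n3, prod_singleton, cyclotomic_one]
      ring
    · rw [prod_image, map_prod]
      · apply prod_congr rfl
        intro d hd
        rw [mem_filter] at hd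
        obtain ⟨hd1, k, rfl⟩ := hd
        have h2 : q ^ 2 * k / q = q * k := by
          rw [show q ^ 2 * k = q * (q * k) by ring]
          exact Nat.mul_div_cancel_left _ hq0
        rw [h2, cyclotomic_expand_eq_cyclotomic hq (Dvd.intro _ rfl)]
        congr 1
        ring
      · intro d hd d' hd' h
        rw [mem_coe, mem_filter] at hd hd'
        obtain ⟨hd1, k, rfl⟩ := hd
        obtain ⟨hd1', k', rfl⟩ := hd'
        have h2 : ∀ k, q ^ 2 * k / q = q * k := by
          intro k
          rw [show q ^ 2 * k = q * (q * k) by ring]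
          exact Nat.mul_div_cancel_left _ hq0
        simp only [h2] at h
        rw [show q ^ 2 * k = q * (q * k) by ring, h]
        ring

/-- the sixteen cases -/
lemma cases_le (P : ℤ[X]) (b1 b2 b3 b4 : Prop) [Decidable b1] [Decidable b2] [Decidable b3]
    [Decidable b4] :
    H (((if b1 then X - 1 else 1) * (if b2 then cyclotomic p ℤ else 1) *
      (if b3 then cyclotomic q ℤ else 1) * (if b4 then cyclotomic (p * q) ℤ else 1)) *
        expand ℤ q P) ≤ p * H P := by
  have : Fact p.Prime := ⟨hp⟩
  have : Fact q.Prime := ⟨hq⟩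
  have hp2 := hp.two_le
  have hq2 := hq.two_le
  have hE := H_expand_le hq.pos P
  have hB := H_block_le hq P
  have hV := H_V_le hp hq hpq P
  have hW := H_W_le hp hq hpq P
  have hW1 := H_W1_le hp hq hpq P
  have hPP := H_Phi_le hp P
  have t1 : H P ≤ p * H P := Nat.le_mul_of_pos_left _ hp.pos
  have t2 : 2 * H P ≤ p * H P := Nat.mul_le_mul_right _ hp2
  have t3 : (p - 1) * H P ≤ p * H P := Nat.mul_le_mul_right _ (by omega)
  have eX : (X - 1 : ℤ[X]) = X ^ 1 - 1 := by ring
  have e1 : (X - 1 : ℤ[X]) * cyclotomic p ℤ = X ^ p - 1 := by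
    rw [mul_comm]; exact cyclotomic_prime_mul_X_sub_one ℤ p
  have e2 : (X - 1 : ℤ[X]) * cyclotomic q ℤ = X ^ q - 1 := by
    rw [mul_comm]; exact cyclotomic_prime_mul_X_sub_one ℤ q
  have e3 := cyc_pq hp hq hpq.ne
  have e4 := cyc_qp hp hq hpq.ne
  by_cases c1 : b1 <;> by_cases c2 : b2 <;> by_cases c3 : b3 <;> by_cases c4 : b4 <;>
    simp only [c1, c2, c3, c4, if_true, if_false, mul_one, one_mul]
  · -- `X ^ (p q) - 1`
    have e : (X - 1 : ℤ[X]) * cyclotomic p ℤ * cyclotomic q ℤ * cyclotomic (p * q) ℤ * expand ℤ q P =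
        expand ℤ q ((X ^ p - 1) * P) := by
      have h := congrArg (expand ℤ q) e1
      simp only [map_mul, map_sub, map_pow, expand_X, map_one] at h ⊢
      rw [← h, ← e3, ← e2]
      ring
    rw [e]
    exact (H_expand_le hq.pos _).trans ((H_sub_mul_le p P).trans t2)
  · -- `(X ^ p - 1) Φ_q`
    rw [e1, mul_assoc]
    exact (H_sub_mul_le p _).trans ((Nat.mul_le_mul_left 2 hB).trans t2)
  · -- `(X - 1) Φ_p (X ^ q)`
    have e : (X - 1 : ℤ[X]) * cyclotomic p ℤ * cyclotomic (p * q) ℤ * expand ℤ q P =
        (X - 1) * expand ℤ q (cyclotomic p ℤ * P) := by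
      rw [map_mul, ← e3]; ring
    rw [e]
    exact (H_sub_expand_le hq2 _).trans hPP
  · rw [e1]
    exact (H_sub_mul_le p _).trans ((Nat.mul_le_mul_left 2 hE).trans t2)
  · -- `(X - 1) Φ_q (X ^ p)`
    have e : (X - 1 : ℤ[X]) * cyclotomic q ℤ * cyclotomic (p * q) ℤ * expand ℤ q P =
        (X ^ 1 - 1) * (expand ℤ p (cyclotomic q ℤ) * expand ℤ q P) := by
      rw [← e4]; ring
    rw [e]
    exact (H_sub_mul_le 1 _).trans ((Nat.mul_le_mul_left 2 hV).trans t2)
  · rw [e2]
    exact (H_sub_mul_le q _).trans ((Nat.mul_le_mul_left 2 hE).trans t2)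
  · rw [mul_assoc]
    exact hW1
  · rw [eX]
    exact (H_sub_mul_le 1 _).trans ((Nat.mul_le_mul_left 2 hE).trans t2)
  · -- `Φ_q Φ_p (X ^ q)`
    have e : cyclotomic p ℤ * cyclotomic q ℤ * cyclotomic (p * q) ℤ * expand ℤ q P =
        cyclotomic q ℤ * expand ℤ q (cyclotomic p ℤ * P) := by
      rw [map_mul, ← e3]; ring
    rw [e]
    exact (H_block_le hq _).trans hPP
  · rw [mul_assoc]
    exact (H_Phi_le hp _).trans (Nat.mul_le_mul_left _ hB)
  · have e : cyclotomic p ℤ * cyclotomic (p * q) ℤ * expand ℤ q P =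
        expand ℤ q (cyclotomic p ℤ * P) := by
      rw [map_mul, ← e3]; ring
    rw [e]
    exact (H_expand_le hq.pos _).trans hPP
  · exact (H_Phi_le hp _).trans (Nat.mul_le_mul_left _ hE)
  · have e : cyclotomic q ℤ * cyclotomic (p * q) ℤ * expand ℤ q P =
        expand ℤ p (cyclotomic q ℤ) * expand ℤ q P := by
      rw [← e4]; ring
    rw [e]
    exact hV.trans t1
  · exact hB.trans t1
  · exact hW.trans t3
  · exact hE.trans t1

lemma cases_le' (P : ℤ[X]) (b3 b4 : Prop) [Decidable b3] [Decidable b4] :
    H (((if b3 then cyclotomic q ℤ else 1) * (if b4 then cyclotomic (p * q) ℤ else 1)) *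
        expand ℤ q P) ≤ (p - 1) * H P := by
  have hp2 := hp.two_le
  have hE := H_expand_le hq.pos P
  have hB := H_block_le hq P
  have hV := H_V_le hp hq hpq P
  have hW := H_W_le hp hq hpq P
  have t1 : H P ≤ (p - 1) * H P := Nat.le_mul_of_pos_left _ (by omega)
  have e4 := cyc_qp hp hq hpq.ne
  by_cases c3 : b3 <;> by_cases c4 : b4 <;>
    simp only [c3, c4, if_true, if_false, mul_one, one_mul]
  · have e : cyclotomic q ℤ * cyclotomic (p * q) ℤ * expand ℤ q P =
        expand ℤ p (cyclotomic q ℤ) * expand ℤ q P := by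
      rw [← e4]; ring
    rw [e]
    exact hV.trans t1
  · exact hB.trans t1
  · exact hW
  · exact hE.trans t1

/-- **the formula `B (p q ^ (c + 1)) = p * Bq (p q ^ c)`** -/
theorem B_eq (c : ℕ) : B (p * q ^ (c + 1)) = p * Bq (p * q ^ c) q := by
  have hq0 := hq.pos
  have hp0 := hp.pos
  have hn : 0 < p * q ^ (c + 1) := by positivity
  apply le_antisymm
  · apply B_le hn
    intro S hS
    obtain ⟨T, hT, h⟩ := decomp hp hq hpq c S hS
    rw [h]
    exact (cases_le hp hq hpq _ _ _ _ _).trans (Nat.mul_le_mul_left _ (le_Bq hT))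
  · obtain ⟨T, hT, h⟩ := Finset.exists_mem_eq_sup
      ((p * q ^ c).divisors.filter (fun d => q ∣ d)).powerset ⟨∅, by simp⟩
      (fun T : Finset ℕ => H (∏ e ∈ T, cyclotomic e ℤ))
    rw [mem_powerset] at hT
    have h' : Bq (p * q ^ c) q = H (∏ e ∈ T, cyclotomic e ℤ) := h
    rw [h']
    have hne : ∏ e ∈ T, cyclotomic e ℤ ≠ 0 := prod_ne_zero_iff.2 fun e _ => cyclotomic_ne_zero e ℤ
    refine (le_H_plateau hp hq hpq _ hne).trans ?_
    -- the product divides `X ^ n - 1`
    have hinj : Set.InjOn (fun e : ℕ => e * q) (T : Set ℕ) := by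
      intro a _ b _ hab
      exact Nat.eq_of_mul_eq_mul_right hq0 hab
    have e1 : cyclotomic p ℤ * (cyclotomic q ℤ * expand ℤ q (∏ e ∈ T, cyclotomic e ℤ)) =
        ∏ d ∈ insert p (insert q (T.image (fun e => e * q))), cyclotomic d ℤ := by
      have hd : ∀ e ∈ T, q ∣ e ∧ 0 < e := by
        intro e he
        have := mem_filter.1 (hT he)
        exact ⟨this.2, Nat.pos_of_mem_divisors this.1⟩
      have n1 : q ∉ T.image (fun e => e * q) := by
        intro hh
        rw [mem_image] at hh
        obtain ⟨e, he, h2⟩ := hh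
        obtain ⟨⟨k, rfl⟩, h4⟩ := hd e he
        have h5 : 0 < k := Nat.pos_of_mul_pos_left h4 |> fun _ => by
          rcases Nat.eq_zero_or_pos k with h | h
          · subst h; simp at h4
          · exact h
        have h6 := hq.two_le
        have h7 : q * 1 < q * k * q := by
          have : q * k ≥ q := Nat.le_mul_of_pos_right _ h5
          nlinarith
        omega
      have n2 : p ∉ insert q (T.image (fun e => e * q)) := by
        intro hh
        rw [mem_insert, mem_image] at hh
        rcases hh with hh | ⟨e, he, h2⟩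
        · omega
        · have : q ∣ p := ⟨e, by rw [← h2, mul_comm]⟩
          have := Nat.le_of_dvd hp0 this
          omega
      rw [prod_insert n2, prod_insert n1, prod_image hinj, map_prod]
      congr 2
      apply prod_congr rfl
      intro e he
      exact cyclotomic_expand_eq_cyclotomic hq (hd e he).1 ℤ
    rw [e1]
    apply le_B' hn
    intro d hd
    rw [mem_insert, mem_insert, mem_image] at hd
    rw [Nat.mem_divisors]
    refine ⟨?_, hn.ne'⟩
    rcases hd with rfl | rfl | ⟨e, he, rfl⟩
    · exact Dvd.intro _ rfl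
    · exact (dvd_pow_self _ (by omega)).mul_left _
    · have h3 := Nat.dvd_of_mem_divisors (mem_filter.1 (hT he)).1
      rw [pow_succ, ← mul_assoc]
      exact Nat.mul_dvd_mul_right h3 _

end

/-- for `p = 2` all products of the upper levels have coefficients `0, 1, -1` -/
theorem Bq_two {q : ℕ} (hq : q.Prime) (h2q : 2 < q) (c : ℕ) : Bq (2 * q ^ c) q = 1 := by
  have hp : Nat.Prime 2 := Nat.prime_two
  apply le_antisymm
  · apply Finset.sup_le
    intro T hT
    rw [mem_powerset] at hT
    induction c generalizing T with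
    | zero =>
      have : T = ∅ := by
        rw [eq_empty_iff_forall_notMem]
        intro d hd
        have h := mem_filter.1 (hT hd)
        have h1 := Nat.dvd_of_mem_divisors h.1
        rw [pow_zero, mul_one] at h1
        have := Nat.le_of_dvd (by norm_num) (h.2.trans h1)
        omega
      rw [this]
      simpa using H_one
    | succ c ih =>
      obtain ⟨T', hT', h⟩ := decomp hp hq h2q c T (hT.trans (filter_subset _ _))
      have h1 : 1 ∉ T := by
        intro h1
        have := (mem_filter.1 (hT h1)).2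
        have := Nat.le_of_dvd (by norm_num) this
        omega
      have h2 : 2 ∉ T := by
        intro h1
        have := (mem_filter.1 (hT h1)).2
        have := Nat.le_of_dvd (by norm_num) this
        omega
      simp only at h ih ⊢
      rw [h, if_neg h1, if_neg h2, one_mul, one_mul]
      refine (cases_le' hp hq h2q _ _ _).trans ?_
      simpa using ih T' hT'
  · refine le_trans ?_ (le_Bq (T := ∅) (by simp))
    rw [prod_empty]
    have := le_H (1 : ℤ[X]) 0
    simpa using this

end Pool.Agent.X40
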