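import Pool.Agent.X40.Ht

/-!
# Products with polynomials in `X ^ q`

If `G` is a divisor of `X ^ (p q) - 1` (`p < q` primes) then the height of `G (X) P (X ^ q)` is at most
`p` times the height of `P`.
-/

set_option autoImplicit false

namespace Pool.Agent.X40

open Polynomial Finset

/-- the coefficient at an integer index, `0` for negative indices -/
noncomputable def cf (F : ℤ[X]) (m : ℤ) : ℤ := if 0 ≤ m then F.coeff m.toNat else 0

lemma cf_neg (F : ℤ[X]) {m : ℤ} (h : m < 0) : cf F m = 0 := by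
  unfold cf; rw [if_neg (by omega)]

lemma cf_nat (F : ℤ[X]) (m : ℕ) : cf F (m : ℤ) = F.coeff m := by
  unfold cf; rw [if_pos (by omega), Int.toNat_natCast]

lemma cf_sub (F G : ℤ[X]) (m : ℤ) : cf (F - G) m = cf F m - cf G m := by
  unfold cf; split_ifs <;> simp

lemma cf_add (F G : ℤ[X]) (m : ℤ) : cf (F + G) m = cf F m + cf G m := by
  unfold cf; split_ifs <;> simp

lemma cf_X_pow_mul (k : ℕ) (F : ℤ[X]) (m : ℤ) : cf (X ^ k * F) m = cf F (m - k) := by
  unfold cf
  by_cases h : 0 ≤ m - k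
  · rw [if_pos h, if_pos (by omega)]
    obtain ⟨j, hj⟩ : ∃ j : ℕ, m = ((j + k : ℕ) : ℤ) := ⟨(m - k).toNat, by omega⟩
    subst hj
    rw [Int.toNat_natCast, coeff_X_pow_mul]
    congr 1
    omega
  · rw [if_neg h]
    split_ifs with h2
    · rw [coeff_X_pow_mul', if_neg (by omega)]
    · rfl

lemma abs_cf_le (F : ℤ[X]) (m : ℤ) : |cf F m| ≤ (H F : ℤ) := by
  unfold cf
  split_ifs
  · exact abs_le_H F _
  · simp

lemma H_le_cf {F : ℤ[X]} {h : ℕ} (hf : ∀ m : ℤ, |cf F m| ≤ (h : ℤ)) : H F ≤ h := by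
  apply H_le
  intro i
  rw [← cf_nat]
  exact hf i

lemma cf_expand {q : ℕ} (hq : 0 < q) (P : ℤ[X]) (m : ℤ) :
    cf (expand ℤ q P) m = if (q : ℤ) ∣ m then cf P (m / q) else 0 := by
  rcases lt_or_ge m 0 with h | h
  · rw [cf_neg _ h]
    split_ifs with h2
    · rw [cf_neg]
      exact Int.ediv_neg_of_neg_of_pos h (by exact_mod_cast hq)
    · rfl
  · obtain ⟨j, rfl⟩ := Int.eq_ofNat_of_zero_le h
    rw [cf_nat, coeff_expand hq]
    by_cases h2 : q ∣ j
    · rw [if_pos h2, if_pos (by exact_mod_cast h2), ← Int.natCast_div, cf_nat]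
    · rw [if_neg h2, if_neg (by exact_mod_cast h2)]

/-- uniqueness for the recursion `u (m - k) = u m` -/
lemma uniq {k : ℕ} (hk : 0 < k) (u : ℤ → ℤ) (h0 : ∀ m : ℤ, m < 0 → u m = 0)
    (h : ∀ m : ℤ, u (m - k) = u m) (m : ℤ) : u m = 0 := by
  have key : ∀ n : ℕ, ∀ m : ℤ, m < n → u m = 0 := by
    intro n
    induction n with
    | zero => intro m hm; exact h0 m (by simpa using hm)
    | succ n ih =>
      intro m hm
      rw [← h m]
      apply ih
      push_cast at hm
      omega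
  exact key (m.toNat + 1) m (by push_cast; omega)

/-- `L m` is the integer with `m = p a + q (L m)`, `0 ≤ a < q` (if `q ∣ p u - 1`) -/
def L (p q : ℕ) (u m : ℤ) : ℤ := (m - p * ((m * u) % q)) / q

lemma L_spec {p q : ℕ} {u : ℤ} (hq : 0 < q) (hu : (q : ℤ) ∣ p * u - 1) (m : ℤ) :
    ∃ a : ℤ, 0 ≤ a ∧ a < q ∧ m = p * a + q * L p q u m := by
  have hq' : (0 : ℤ) < q := by exact_mod_cast hq
  refine ⟨(m * u) % q, Int.emod_nonneg _ hq'.ne', Int.emod_lt_of_pos _ hq', ?_⟩
  have h1 : (q : ℤ) ∣ m - p * ((m * u) % q) := by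
    have h2 : m * u % q = m * u - q * (m * u / q) := by
      have := Int.emod_add_mul_ediv (m * u) q
      linarith
    rw [h2]
    obtain ⟨c, hc⟩ := hu
    refine ⟨-(m * c) + p * (m * u / q), ?_⟩
    have : (p : ℤ) * u = 1 + q * c := by linarith
    linear_combination (-m) * hc
  unfold L
  rw [Int.mul_ediv_cancel' h1]
  ring

lemma L_uniq {p q : ℕ} {u : ℤ} (hq : 0 < q) (hu : (q : ℤ) ∣ p * u - 1) {m a l : ℤ} (ha : 0 ≤ a)
    (haq : a < q) (h : m = p * a + q * l) : L p q u m = l := by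
  obtain ⟨a', h1, h2, h3⟩ := L_spec (p := p) hq hu m
  have hq' : (0 : ℤ) < q := by exact_mod_cast hq
  have h4 : (q : ℤ) ∣ a - a' := by
    have h5 : (q : ℤ) ∣ p * (a - a') := ⟨L p q u m - l, by linear_combination h3 - h⟩
    have h6 : (q : ℤ) ∣ (p * u) * (a - a') := by
      have := h5.mul_left u
      rwa [← mul_assoc, mul_comm u] at this
    have h7 : (q : ℤ) ∣ (p * u - 1) * (a - a') := hu.mul_right _
    have h8 := dvd_sub h6 h7
    rwa [show (p : ℤ) * u * (a - a') - (p * u - 1) * (a - a') = a - a' by ring] at h8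
  have h9 : a - a' = 0 := by
    apply Int.eq_zero_of_abs_lt_dvd h4
    rw [abs_lt]
    constructor <;> linarith
  have h10 : a = a' := by linarith
  subst h10
  have h11 : (q : ℤ) * L p q u m = q * l := by linarith
  exact mul_left_cancel₀ hq'.ne' h11

lemma L_sub_q {p q : ℕ} {u : ℤ} (hq : 0 < q) (hu : (q : ℤ) ∣ p * u - 1) (m : ℤ) :
    L p q u (m - q) = L p q u m - 1 := by
  obtain ⟨a, h1, h2, h3⟩ := L_spec (p := p) hq hu m
  apply L_uniq hq hu h1 h2
  linear_combination h3

lemma L_neg {p q : ℕ} {u : ℤ} (hq : 0 < q) (hu : (q : ℤ) ∣ p * u - 1) {m : ℤ} (hm : m < 0) :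
    L p q u m < 0 := by
  obtain ⟨a, h1, h2, h3⟩ := L_spec (p := p) hq hu m
  have hq' : (0 : ℤ) < q := by exact_mod_cast hq
  have h4 : (q : ℤ) * L p q u m < 0 := by
    have : 0 ≤ (p : ℤ) * a := by positivity
    linarith
  by_contra h5
  push Not at h5
  have : 0 ≤ (q : ℤ) * L p q u m := by positivity
  linarith

section

variable {p q : ℕ} (hp : p.Prime) (hq : q.Prime)

include hp hq

/-- the coefficients of `Φ_q (X ^ p) P (X ^ q)` -/
lemma cf_V {u : ℤ} (hu : (q : ℤ) ∣ p * u - 1) (P : ℤ[X]) (m : ℤ) :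
    cf (expand ℤ p (cyclotomic q ℤ) * expand ℤ q P) m = cf P (L p q u m) := by
  have hq0 := hq.pos
  have hp0 := hp.pos
  have : Fact q.Prime := ⟨hq⟩
  have hq' : (0 : ℤ) < q := by exact_mod_cast hq0
  set V := expand ℤ p (cyclotomic q ℤ) * expand ℤ q P with hV
  have h1 : X ^ p * V - V = X ^ (p * q) * expand ℤ q P - expand ℤ q P := by
    have h2 := congrArg (expand ℤ p) (cyclotomic_prime_mul_X_sub_one ℤ q)
    simp only [map_mul, map_sub, map_pow, expand_X, map_one, ← pow_mul] at h2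
    rw [hV]
    linear_combination (expand ℤ q P) * h2
  have h3 : ∀ m : ℤ, cf V (m - p) - cf V m = cf (expand ℤ q P) (m - (p * q : ℕ)) -
      cf (expand ℤ q P) m := by
    intro m
    rw [← cf_X_pow_mul, ← cf_sub, h1, cf_sub, cf_X_pow_mul]
  have h4 : ∀ m : ℤ, cf P (L p q u (m - p)) - cf P (L p q u m) =
      cf (expand ℤ q P) (m - (p * q : ℕ)) - cf (expand ℤ q P) m := by
    intro m
    obtain ⟨a, ha, haq, hm⟩ := L_spec (p := p) hq0 hu m
    rw [cf_expand hq0, cf_expand hq0]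
    rcases ha.eq_or_lt with h | h
    · -- `a = 0`
      rw [← h, mul_zero, zero_add] at hm
      have e1 : L p q u (m - p) = L p q u m - p := by
        apply L_uniq hq0 hu (a := q - 1) (by linarith) (by linarith)
        linear_combination hm
      rw [e1, if_pos, if_pos]
      · have e2 : m / (q : ℤ) = L p q u m := by
          rw [hm]
          conv_rhs => rw [← hm]
          exact Int.mul_ediv_cancel_left _ hq'.ne'
        have e3 : (m - ((p * q : ℕ) : ℤ)) / (q : ℤ) = L p q u m - p := by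
          have : m - ((p * q : ℕ) : ℤ) = q * (L p q u m - p) := by
            push_cast
            linear_combination hm
          rw [this]
          exact Int.mul_ediv_cancel_left _ hq'.ne'
        rw [e2, e3]
      · exact ⟨_, hm⟩
      · exact ⟨L p q u m - p, by push_cast; linear_combination hm⟩
    · have e1 : L p q u (m - p) = L p q u m := by
        apply L_uniq hq0 hu (a := a - 1) (by linarith) (by linarith)
        linear_combination hm
      have e2 : ¬ (q : ℤ) ∣ m := by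
        rintro ⟨c, hc⟩
        have e3 : L p q u m = c := L_uniq hq0 hu (a := 0) le_rfl hq' (by linarith)
        rw [e3] at hm
        have e4 : (p : ℤ) * a = 0 := by linarith
        rcases mul_eq_zero.1 e4 with e5 | e5
        · have : p = 0 := by exact_mod_cast e5
          omega
        · omega
      have e5 : ¬ (q : ℤ) ∣ m - ((p * q : ℕ) : ℤ) := by
        intro h6
        apply e2
        have : (q : ℤ) ∣ ((p * q : ℕ) : ℤ) := ⟨p, by push_cast; ring⟩
        have := dvd_add h6 this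
        rwa [sub_add_cancel] at this
      rw [e1, if_neg e2, if_neg e5]
      ring
  have h5 := uniq (k := p) hp0 (fun m => cf V m - cf P (L p q u m)) (by
    intro m hm
    rw [cf_neg _ hm, cf_neg _ (L_neg hq0 hu hm)]
    ring) (by
    intro m
    linarith [h3 m, h4 m]) m
  linarith

end

/-- the sums of the coefficients up to `l` -/
noncomputable def C (P : ℤ[X]) (l : ℤ) : ℤ := ∑ j ∈ range (l + 1).toNat, P.coeff j

lemma C_neg (P : ℤ[X]) {l : ℤ} (h : l < 0) : C P l = 0 := by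
  unfold C
  rw [show (l + 1).toNat = 0 by omega]
  simp

lemma C_sub (P : ℤ[X]) (l : ℤ) : C P l - C P (l - 1) = cf P l := by
  rcases lt_or_ge l 0 with h | h
  · rw [C_neg P h, C_neg P (by omega), cf_neg _ h]; ring
  · obtain ⟨j, rfl⟩ := Int.eq_ofNat_of_zero_le h
    unfold C
    rw [cf_nat, show ((j : ℤ) + 1).toNat = j + 1 by omega, show ((j : ℤ) - 1 + 1).toNat = j by omega,
      sum_range_succ]
    ring

lemma C_add_le (P : ℤ[X]) (l : ℤ) (k : ℕ) : |C P (l + k) - C P l| ≤ k * (H P : ℤ) := by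
  induction k with
  | zero => simp
  | succ k ih =>
    have h1 := C_sub P (l + (k + 1 : ℕ))
    have h2 : l + ((k + 1 : ℕ) : ℤ) - 1 = l + k := by push_cast; ring
    rw [h2] at h1
    have h3 : C P (l + (k + 1 : ℕ)) - C P l = (C P (l + k) - C P l) + cf P (l + (k + 1 : ℕ)) := by
      linarith
    rw [h3]
    refine (abs_add_le _ _).trans ?_
    have := abs_cf_le P (l + (k + 1 : ℕ))
    push_cast at this ⊢
    linarith

lemma C_diff_le (P : ℤ[X]) (l l' : ℤ) : |C P l - C P l'| ≤ |l - l'| * (H P : ℤ) := by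
  rcases le_total l' l with h | h
  · obtain ⟨k, hk⟩ := Int.eq_ofNat_of_zero_le (sub_nonneg.2 h)
    have := C_add_le P l' k
    rw [hk]
    rw [← hk, add_sub_cancel] at this
    rw [hk] at this
    simpa using this
  · obtain ⟨k, hk⟩ := Int.eq_ofNat_of_zero_le (sub_nonneg.2 h)
    have := C_add_le P l k
    rw [abs_sub_comm, abs_sub_comm l, hk]
    rw [← hk, add_sub_cancel] at this
    rw [hk] at this
    simpa using this

section

variable {p q : ℕ} (hp : p.Prime) (hq : q.Prime) (hpq : p ≠ q)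

include hp hq hpq

/-- `Φ_q Φ_{pq} = Φ_q (X ^ p)` -/
lemma cyc_qp : cyclotomic (p * q) ℤ * cyclotomic q ℤ = expand ℤ p (cyclotomic q ℤ) := by
  rw [cyclotomic_expand_eq_cyclotomic_mul hp (fun h => hpq ((Nat.prime_dvd_prime_iff_eq hp hq).1 h)) ℤ,
    mul_comm q p]

lemma cyc_pq : cyclotomic (p * q) ℤ * cyclotomic p ℤ = expand ℤ q (cyclotomic p ℤ) := by
  rw [cyclotomic_expand_eq_cyclotomic_mul hq (fun h => hpq ((Nat.prime_dvd_prime_iff_eq hq hp).1 h).symm) ℤ]

/-- the coefficients of `Φ_{pq} P (X ^ q)` -/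
lemma cf_W {u : ℤ} (hu : (q : ℤ) ∣ p * u - 1) (P : ℤ[X]) (m : ℤ) :
    cf (cyclotomic (p * q) ℤ * expand ℤ q P) m =
      C P (L p q u m) - C P (L p q u (m - 1)) := by
  have hq0 := hq.pos
  have : Fact q.Prime := ⟨hq⟩
  set W := cyclotomic (p * q) ℤ * expand ℤ q P with hW
  have h1 : X ^ q * W - W = X ^ 1 * (expand ℤ p (cyclotomic q ℤ) * expand ℤ q P) -
      expand ℤ p (cyclotomic q ℤ) * expand ℤ q P := by
    have h2 := cyclotomic_prime_mul_X_sub_one ℤ q
    rw [← cyc_qp hp hq hpq, hW, pow_one]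
    linear_combination (-(cyclotomic (p * q) ℤ * expand ℤ q P)) * h2
  have h3 : ∀ m : ℤ, cf W (m - q) - cf W m = cf P (L p q u (m - 1)) - cf P (L p q u m) := by
    intro m
    rw [← cf_X_pow_mul, ← cf_sub, h1, cf_sub, cf_X_pow_mul, cf_V hp hq hu, cf_V hp hq hu]
    norm_num
  have h5 := uniq (k := q) hq0 (fun m => cf W m - (C P (L p q u m) - C P (L p q u (m - 1)))) (by
    intro m hm
    rw [cf_neg _ hm, C_neg _ (L_neg hq0 hu hm), C_neg _ (L_neg hq0 hu (by linarith))]
    ring) (by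
    intro m
    have e1 := L_sub_q (p := p) hq0 hu m
    have e2 := L_sub_q (p := p) hq0 hu (m - 1)
    rw [show m - (q : ℤ) - 1 = m - 1 - q by ring, e1, e2]
    linarith [h3 m, C_sub P (L p q u m), C_sub P (L p q u (m - 1))]) m
  linarith

end

lemma exists_inv {p q : ℕ} (hp : p.Prime) (hq : q.Prime) (hpq : p ≠ q) :
    ∃ u : ℤ, (q : ℤ) ∣ p * u - 1 := by
  have h : IsCoprime (p : ℤ) (q : ℤ) := by
    rw [Nat.isCoprime_iff_coprime]
    exact (Nat.coprime_primes hp hq).2 hpq
  obtain ⟨a, b, hab⟩ := h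
  exact ⟨a, -b, by linear_combination hab⟩

/-- the jumps of `L` : `L m - L (m - 1)` is one of `c`, `c - p`, in the first case `a` decreases by `s`,
in the second case it increases by `q - s` -/
lemma L_jump {p q : ℕ} {u : ℤ} (hq : 0 < q) (hu : (q : ℤ) ∣ p * u - 1) (m : ℤ) :
    ∃ a a' : ℤ, 0 ≤ a ∧ a < q ∧ 0 ≤ a' ∧ a' < q ∧ p * (a - a') + q * (L p q u m - L p q u (m - 1)) = 1 ∧
      m = p * a + q * L p q u m ∧ m - 1 = p * a' + q * L p q u (m - 1) := by
  obtain ⟨a, h1, h2, h3⟩ := L_spec (p := p) hq hu m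
  obtain ⟨a', h4, h5, h6⟩ := L_spec (p := p) hq hu (m - 1)
  exact ⟨a, a', h1, h2, h4, h5, by linear_combination h6 - h3, h3, h6⟩

end Pool.Agent.X40
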